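import Pool.Agent.Helper13BB.Fil

/-!
# The converse, uniqueness, and the main theorem
-/

open CategoryTheory AlgebraicGeometry

universe u v w

namespace Pool.Agent.Helper13BB

open Pool.Agent.H914 Pool.Agent.H914.VarClass Pool.Agent.H914.VarClass.Obj Pool.Agent.W492.BB
  Pool.Agent.W550.Corr Pool.Agent.TH133 Pool.Agent.Y148.BB

set_option linter.unusedSectionVars false
set_option linter.unusedVariables false

variable {k : Type u} [Field k] {𝒱 : VarClass k}

variable {C : TheoryData.{u, v, 0} 𝒱 ℚ} [hC : IsChowProj C] {K : Type w} [Field K]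
  {H : WeilTheoryData.{u, v, w} C K} [hH : IsWeilProj H] {X Y Z W P P' S T R : 𝒱.Obj}
  {N : ∀ X : 𝒱.Obj, ℕ → Submodule ℚ (C.A X)}

/-- The direct summands of the motives of products of curves and surfaces of dimension at most
`D`. -/
def SumD (Q : ∀ S : 𝒱.Obj, C.A (S.prod S) → Prop) (D : ℕ∞) (X : 𝒱.Obj) : Prop :=
  SummandOf C (fun P => IsProductOfCurvesAndSurfaces Q P ∧ (P.dim : ℕ∞) ≤ D) X

variable {Q : ∀ S : 𝒱.Obj, C.A (S.prod S) → Prop} (hQ : ∀ S q, Q S q → IsTranscendental H S q)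

include hC hH hQ

lemma part_product {n : ℕ} {p : C.A (P.prod P)} (h : IsPart Q n P p) :
    IsProductOfCurvesAndSurfaces Q P := by
  have h1 : ∀ {n : ℕ} {T : 𝒱.Obj} {r : C.A (T.prod T)}, IsFactor Q n T r →
      T.dim = 1 ∨ ∃ q, Q T q := by
    intro n T r hr
    cases hr with
    | curve _ o hT ho hd => exact Or.inl hT
    | surface _ _ h => exact Or.inr ⟨_, h⟩
  induction h with
  | factor n T r hr => exact IsProductOfCurvesAndSurfaces.factor T (h1 hr)
  | prod n m P T p r hp hr ih => exact IsProductOfCurvesAndSurfaces.prod P T ih (h1 hr)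

lemma part_sumD {D : ℕ∞} {n : ℕ} {p : C.A (P.prod P)} (h : IsPart Q n P p)
    (hn : (n : ℕ∞) ≤ D) : SumD Q D P :=
  ⟨P, ⟨part_product hQ h, by rw [(prim_part hQ h).dim_eq]; exact hn⟩, dg C P, dg C P, dg_mem C P,
    dg_mem C P, comp_dg C _⟩

lemma sumD_hasDec {D : ℕ∞} (h : SumD Q D X) : HasDec Q D X := by
  obtain ⟨P, ⟨h1, h2⟩, f, g, hf, hg, hfg⟩ := h
  exact ((hasDec_product hQ h1).mono h2).summand hQ f g hf hg hfg

/-- On a primitive part of weight `n`, classes in `F^μ`, `2 i - μ < n`, vanish. -/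
lemma fil_vanish {S : 𝒱.Obj → Prop} {F : ∀ X : 𝒱.Obj, ℕ → ℕ → Submodule ℚ (C.A X)}
    (hF : IsBlochBeilinsonOn H N S F) {n : ℕ} {p : C.A (P.prod P)} (hp : Prim H n P p) (hP : S P)
    {i μ : ℕ} (hμ : 2 * i < μ + n) {y : C.A P} (hy : y ∈ F P i μ) (hpy : C.act p y = y) :
    y = 0 := by
  have h1 : ∀ l : ℕ, y ∈ F P i (μ + l) := by
    intro l
    induction l with
    | zero => exact hy
    | succ l ih =>
      rw [← hpy]
      refine hF.shift P P hP hP i i (μ + l) p ?_ ?_ y ih
      · rw [add_sub_cancel_right]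
        exact hp.deg
      · exact hp.kills (by push_cast; omega)
  have h2 : ∀ m l : ℕ, F P i (m + l) ≤ F P i m := by
    intro m l
    induction l with
    | zero => exact le_rfl
    | succ l ih => exact (hF.anti P hP i (m + l)).trans ih
  have h3 := h1 (i + 1)
  rw [add_comm] at h3
  have h4 := h2 _ _ h3
  rw [hF.top P hP i] at h4
  exact (Submodule.mem_bot _).1 h4

/-- On a primitive part of weight `n`, classes of codimension `i` are in `F^μ`, `n + μ ≤ 2 i`. -/
lemma fil_mem {S : 𝒱.Obj → Prop} {F : ∀ X : 𝒱.Obj, ℕ → ℕ → Submodule ℚ (C.A X)}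
    (hF : IsBlochBeilinsonOn H N S F) {n : ℕ} {p : C.A (P.prod P)} (hp : Prim H n P p) (hP : S P)
    {i : ℕ} {y : C.A P} (hy : C.Deg i y) (hpy : C.act p y = y) (μ : ℕ) (hμ : n + μ ≤ 2 * i) :
    y ∈ F P i μ := by
  induction μ with
  | zero => exact (hF.zero P hP i y).2 hy
  | succ μ ih =>
    rw [← hpy]
    refine hF.shift P P hP hP i i μ p ?_ ?_ y (ih (by omega))
    · rw [add_sub_cancel_right]
      exact hp.deg
    · exact hp.kills (by omega)

/-- **Uniqueness**: a Bloch-Beilinson filtration is given by the primitive parts. -/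
theorem unique {D : ℕ∞} {F : ∀ X : 𝒱.Obj, ℕ → ℕ → Submodule ℚ (C.A X)}
    (hF : IsBlochBeilinsonOn H N (SumD Q D) F) (hX : SumD Q D X) (j ν : ℕ) :
    F X j ν = partFil Q D X j ν := by
  by_cases hν : ν = 0
  · subst hν
    rw [partFil_zero]
    ext z
    exact hF.zero X hX j z
  apply le_antisymm
  · intro z hz
    have h2 : ∀ m l : ℕ, F X j (m + l) ≤ F X j m := by
      intro m l
      induction l with
      | zero => exact le_rfl
      | succ l ih => exact (hF.anti X hX j (m + l)).trans ih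
    have h3 : z ∈ F X j 1 := by
      obtain ⟨l, rfl⟩ := Nat.exists_eq_add_of_le (Nat.one_le_iff_ne_zero.2 hν)
      exact h2 1 l hz
    obtain ⟨hz1, hz2⟩ := (hF.one X hX j z).1 h3
    rw [partFil_pos _ _ _ hν]
    refine (sumD_hasDec hQ hX).induct hQ hz1 hz2 _ fun n P p r A B hP hn hr hA hB => ?_
    have hP' := prim_part hQ hP
    have hSP := part_sumD hQ hP hn
    have h4 : C.act p (C.act A z) ∈ F P (j - r) ν := by
      refine hF.stable P P hSP hSP (j - r) (j - r) ν p ?_ _ ?_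
      · rw [add_sub_cancel_right]
        exact hP'.deg
      · refine hF.stable X P hX hSP j (j - r) ν A ?_ z hz
        exact gr_congr (C := C) (by rw [Nat.cast_sub hr]; ring) hA
    have h5 : C.act p (C.act p (C.act A z)) = C.act p (C.act A z) := by
      rw [← C.act_comp, hP'.idem]
    by_cases h6 : ν + n ≤ 2 * (j - r)
    · apply Submodule.subset_span
      refine ⟨n, j - r, P, p, B, _, hP, hn, h6, ?_, ?_, h5, rfl⟩
      · exact gr_congr (C := C) (by rw [Nat.cast_sub hr]; ring) hB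
      · have e1 := act_mem' C (e := -(r : ℤ)) (Γ := A) (gr_congr (C := C) (by ring) hA) hz1
        exact act_mem0 C hP'.deg (gr_congr (C := C) (by rw [Nat.cast_sub hr]; ring) e1)
    · rw [fil_vanish hQ hF hP' hSP (by omega) h4 h5, TheoryData.act_map_zero]
      exact Submodule.zero_mem _
  · rw [partFil_pos _ _ _ hν, Submodule.span_le]
    rintro z ⟨n, i, P, p, B, y, hP, hn, hν', hB, hy, hpy, rfl⟩
    have hP' := prim_part hQ hP
    have hSP := part_sumD hQ hP hn
    refine hF.stable P X hSP hX i j ν B ?_ y (fil_mem hQ hF hP' hSP hy hpy ν (by omega))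
    rw [hP'.dim_eq]
    exact hB

/-- **A Bloch-Beilinson filtration gives the injectivity of the Abel-Jacobi maps.** -/
theorem injective_of_bb {D : ℕ∞} {F : ∀ X : 𝒱.Obj, ℕ → ℕ → Submodule ℚ (C.A X)}
    (hF : IsBlochBeilinsonOn H N (SumD Q D) F) {j : ℕ} (hj : 1 ≤ j)
    (hjD : ((2 * j - 1 : ℕ) : ℕ∞) ≤ D) : InjectiveOnPrimitive Q N j := by
  intro P p hP z hz hpz
  have hSP := part_sumD hQ hP hjD
  rw [← hF.two P hSP j] at hz
  exact fil_vanish hQ hF (prim_part hQ hP) hSP (by omega) hz hpz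

omit hC hH hQ in
lemma bb_mono {S S' : 𝒱.Obj → Prop} {F : ∀ X : 𝒱.Obj, ℕ → ℕ → Submodule ℚ (C.A X)}
    (hF : IsBlochBeilinsonOn H N S F) (h : ∀ X, S' X → S X) : IsBlochBeilinsonOn H N S' F where
  anti X hX := hF.anti X (h X hX)
  zero X hX := hF.zero X (h X hX)
  one X hX := hF.one X (h X hX)
  two X hX := hF.two X (h X hX)
  top X hX := hF.top X (h X hX)
  stable X Y hX hY := hF.stable X Y (h X hX) (h Y hY)
  shift X Y hX hY := hF.shift X Y (h X hX) (h Y hY)

/-- **The injectivity of the Abel-Jacobi maps gives a Bloch-Beilinson filtration.** -/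
theorem bb_of_injective (hN : IsAbelJacobiKernel H N) (hF : FibreProperty C) {D : ℕ∞}
    (hInj : ∀ j : ℕ, 2 ≤ j → (j : ℕ∞) ≤ D → InjectiveOnPrimitive Q N j) :
    IsBlochBeilinsonOn H N (SumD Q D) (partFil Q D) :=
  bb_mono (bb_partFil hQ hN (van_part hN hQ hF hInj)) fun _ => sumD_hasDec hQ

end Pool.Agent.Helper13BB
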