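import Pool.Agent.Helper13BB.Stm
import Pool.Agent.Helper13BB.Main

/-!
# Comparison of the definitions used in the statement with those used in the proof
-/

open CategoryTheory AlgebraicGeometry

universe u v w

namespace Pool.Agent.Helper13BB.Conv

open Pool.Agent.H914 Pool.Agent.H914.VarClass Pool.Agent.H914.VarClass.Obj Pool.Agent.W492.BB
  Pool.Agent.W550.Corr Pool.Agent.TH133

variable {k : Type u} [Field k] {𝒱 : VarClass k}

variable {C : TheoryData.{u, v, 0} 𝒱 ℚ} {K : Type w} [Field K]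
  {H : WeilTheoryData.{u, v, w} C K} {X Y Z W P S T : 𝒱.Obj}

lemma chow (h : Stm.IsChowTheory C) : IsChowProj C :=
  { h.isChow with
    push_one := h.push_one
    gr_zero := h.gr_zero
    gr_top := h.gr_top
    degree := h.degree
    polarized := h.polarized }

lemma weil (h : Stm.IsWeilTheory H) : IsWeilProj H :=
  { h.isWeil with
    gr_zero := h.gr_zero
    one_ne_zero := h.one_ne_zero
    tr_eq_zero := h.tr_eq_zero }

lemma degOne_iff (x : C.A X) : Stm.DegOne C x ↔ HasDegree C x 1 := by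
  unfold Stm.DegOne HasDegree
  simp only [one_smul]

lemma fibre (h : Stm.FibreProperty C) : Y148.BB.FibreProperty C :=
  fun X T j z hT hz hr => h X T j z hT hz hr

lemma pencil {x : C.A S} (h : Stm.PencilProperty C x) : Y148.BB.PencilProperty C x :=
  fun P j z hz hr => h P j z hz fun T i o hT ho hd hi => hr T i o hT ho ((degOne_iff o).1 hd) hi

lemma ck {π : ℕ → C.A (X.prod X)} (h : Stm.IsChowKunneth H X π) : IsCK H X π where
  deg := h.deg
  out := h.out
  idem := h.idem
  orth := h.orth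
  sum := h.sum
  act_self := h.act_self
  act_ne i m a hm ha := h.act_ne i m hm a ha

lemma trans {q : C.A (S.prod S)} (h : Stm.IsTranscendental H S q) :
    Y148.BB.IsTranscendental H S q where
  dim_eq := h.dim_eq
  deg := h.deg
  idem := h.idem
  self_dual := h.self_dual
  divisor := h.divisor
  exists_ck := by
    obtain ⟨x, π, hx, hd, hp, hπ, h0, h4, h2, h5, h1, h3⟩ := h.exists_ck
    refine ⟨x, π, hx, (degOne_iff x).1 hd, pencil hp, ck hπ, h0, h4, h2, h5, ?_, ?_⟩
    · refine Submodule.span_mono ?_ h1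
      rintro c ⟨T, o, f, g, hT, ho, hdo, hf, hg, hc⟩
      exact ⟨T, o, f, g, hT, ho, (degOne_iff o).1 hdo, hf, hg, hc⟩
    · refine Submodule.span_mono ?_ h3
      rintro c ⟨T, o, f, g, hT, ho, hdo, hf, hg, hc⟩
      exact ⟨T, o, f, g, hT, ho, (degOne_iff o).1 hdo, hf, hg, hc⟩

section parts

variable {Q : ∀ S : 𝒱.Obj, C.A (S.prod S) → Prop}

lemma factor_iff {n : ℕ} {r : C.A (T.prod T)} :
    Stm.IsFactor Q n T r ↔ Y148.BB.IsFactor Q n T r := by
  constructor
  · intro h
    cases h with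
    | curve _ o hT ho hd => exact Y148.BB.IsFactor.curve T o hT ho ((degOne_iff o).1 hd)
    | surface _ _ h => exact Y148.BB.IsFactor.surface _ _ h
  · intro h
    cases h with
    | curve _ o hT ho hd => exact Stm.IsFactor.curve T o hT ho ((degOne_iff o).2 hd)
    | surface _ _ h => exact Stm.IsFactor.surface _ _ h

lemma part_iff {n : ℕ} {p : C.A (P.prod P)} :
    Stm.IsPart Q n P p ↔ Y148.BB.IsPart Q n P p := by
  constructor
  · intro h
    induction h with
    | factor n T r hr => exact Y148.BB.IsPart.factor n T r (factor_iff.1 hr)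
    | prod n m P T p r hp hr ih => exact Y148.BB.IsPart.prod n m P T p r ih (factor_iff.1 hr)
  · intro h
    induction h with
    | factor n T r hr => exact Stm.IsPart.factor n T r (factor_iff.2 hr)
    | prod n m P T p r hp hr ih => exact Stm.IsPart.prod n m P T p r ih (factor_iff.2 hr)

lemma product_iff : Stm.IsProduct Q P ↔ Y148.BB.IsProductOfCurvesAndSurfaces Q P := by
  constructor
  · intro h
    induction h with
    | factor T hT => exact Y148.BB.IsProductOfCurvesAndSurfaces.factor T hT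
    | prod P T hP hT ih => exact Y148.BB.IsProductOfCurvesAndSurfaces.prod P T ih hT
  · intro h
    induction h with
    | factor T hT => exact Stm.IsProduct.factor T hT
    | prod P T hP hT ih => exact Stm.IsProduct.prod P T ih hT

lemma injective_iff {N : Stm.Fam C} {j : ℕ} :
    Stm.InjectiveOnPrimitive Q N j ↔ Y148.BB.InjectiveOnPrimitive Q N j :=
  ⟨fun h P p hp z hz hpz => h P p (part_iff.2 hp) z hz hpz,
    fun h P p hp z hz hpz => h P p (part_iff.1 hp) z hz hpz⟩

lemma summand_iff {D : ℕ∞} : Stm.SummandOf C (fun P => Stm.IsProduct Q P ∧ (P.dim : ℕ∞) ≤ D) X ↔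
    SumD Q D X := by
  constructor
  · rintro ⟨P, ⟨hP, hd⟩, h⟩
    exact ⟨P, ⟨product_iff.1 hP, hd⟩, h⟩
  · rintro ⟨P, ⟨hP, hd⟩, h⟩
    exact ⟨P, ⟨product_iff.2 hP, hd⟩, h⟩

end parts

lemma ajk {N : Stm.Fam C} (h : Stm.IsAbelJacobiKernel H N) : Y148.BB.IsAbelJacobiKernel H N where
  deg := h.deg
  stable := h.stable
  kills := h.kills
  abel := h.abel

lemma bb_iff {N : Stm.Fam C} {S : 𝒱.Obj → Prop} {F : ℕ → Stm.Fam C} :
    Stm.IsBlochBeilinsonOn H N S F ↔
      Y148.BB.IsBlochBeilinsonOn H N S (fun X j ν => F ν X j) := by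
  constructor
  · intro h
    exact
      { anti := fun X hX j ν z hz => h.anti X hX j ν z hz
        zero := h.zero
        one := h.one
        two := fun X hX j => by
          ext z
          exact h.two X hX j z
        top := fun X hX j => by
          rw [Submodule.eq_bot_iff]
          exact h.top X hX j
        stable := h.stable
        shift := h.shift }
  · intro h
    exact
      { anti := fun X hX j ν z hz => h.anti X hX j ν hz
        zero := h.zero
        one := h.one
        two := fun X hX j z => SetLike.ext_iff.1 (h.two X hX j) z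
        top := fun X hX j z hz => (Submodule.eq_bot_iff _).1 (h.top X hX j) z hz
        stable := h.stable
        shift := h.shift }

open Pool.Agent.Helper13BB.Stm in
/-- **The main theorem.** -/
theorem main {k : Type u} [Field k] {𝒱 : VarClass k} {C : TheoryData.{u, v, 0} 𝒱 ℚ}
    (hC : IsChowTheory C) {K : Type w} [Field K] {H : WeilTheoryData.{u, v, w} C K}
    (hH : IsWeilTheory H) {N : Fam C} (hN : IsAbelJacobiKernel H N) (hF : FibreProperty C)
    (Q : ∀ S : 𝒱.Obj, C.A (S.prod S) → Prop) (hQ : ∀ S q, Q S q → IsTranscendental H S q) :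
    ((∃ F, IsBlochBeilinsonOn H N (SummandOf C (IsProduct Q)) F) ↔
      ∀ j, 2 ≤ j → InjectiveOnPrimitive Q N j) ∧
    (∀ F F', IsBlochBeilinsonOn H N (SummandOf C (IsProduct Q)) F →
      IsBlochBeilinsonOn H N (SummandOf C (IsProduct Q)) F' →
      ∀ X, SummandOf C (IsProduct Q) X → ∀ (j ν : ℕ) (z : C.A X), (F ν).Has j z ↔
        (F' ν).Has j z) ∧
    ∀ d : ℕ,
      ((∀ j, 2 ≤ j → j ≤ d → InjectiveOnPrimitive Q N j) → ∃ F, IsBlochBeilinsonOn H N
        (SummandOf C fun P => IsProduct Q P ∧ P.dim ≤ d) F) ∧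
      ((∃ F, IsBlochBeilinsonOn H N
        (SummandOf C fun P => IsProduct Q P ∧ P.dim ≤ 2 * d - 1) F) →
        ∀ j, 2 ≤ j → j ≤ d → InjectiveOnPrimitive Q N j) := by
  have : IsChowProj C := chow hC
  have : IsWeilProj H := weil hH
  have hQ' : ∀ S q, Q S q → Y148.BB.IsTranscendental H S q := fun S q h => trans (hQ S q h)
  have hN' := ajk hN
  have hF' := fibre hF
  have h1 : ∀ X, SummandOf C (IsProduct Q) X ↔ SumD Q ⊤ X := by
    intro X
    rw [← summand_iff]
    constructor
    · rintro ⟨P, hP, h⟩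
      exact ⟨P, ⟨hP, le_top⟩, h⟩
    · rintro ⟨P, hP, h⟩
      exact ⟨P, hP.1, h⟩
  have h2 : ∀ (d : ℕ) X, (SummandOf C fun P => IsProduct Q P ∧ P.dim ≤ d) X ↔
      SumD Q (d : ℕ∞) X := by
    intro d X
    rw [← summand_iff]
    constructor
    · rintro ⟨P, hP, h⟩
      exact ⟨P, ⟨hP.1, by exact_mod_cast hP.2⟩, h⟩
    · rintro ⟨P, hP, h⟩
      exact ⟨P, ⟨hP.1, by exact_mod_cast hP.2⟩, h⟩
  have h3 : ∀ {D : ℕ∞} {S : 𝒱.Obj → Prop}, (∀ X, S X ↔ SumD Q D X) →
      (∀ j : ℕ, 2 ≤ j → (j : ℕ∞) ≤ D → InjectiveOnPrimitive Q N j) →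
      ∃ F, IsBlochBeilinsonOn H N S F := by
    intro D S hS h
    refine ⟨fun ν X j => partFil Q D X j ν, bb_iff.2 ?_⟩
    exact bb_mono (bb_of_injective hQ' hN' hF' fun j hj hjD => injective_iff.1 (h j hj hjD))
      fun X => (hS X).1
  have h4 : ∀ {D : ℕ∞} {S : 𝒱.Obj → Prop}, (∀ X, S X ↔ SumD Q D X) →
      ∀ F, IsBlochBeilinsonOn H N S F → Y148.BB.IsBlochBeilinsonOn H N (SumD Q D)
        (fun X j ν => F ν X j) := by
    intro D S hS F hBB
    exact bb_mono (bb_iff.1 hBB) fun X => (hS X).2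
  refine ⟨⟨?_, ?_⟩, ?_, fun d => ⟨?_, ?_⟩⟩
  · rintro ⟨F, hBB⟩ j hj
    exact injective_iff.2 (injective_of_bb hQ' (h4 h1 F hBB) (by omega) le_top)
  · intro h
    exact h3 h1 fun j hj _ => h j hj
  · intro F F' hBB hBB' X hX j ν z
    have e1 := unique hQ' (h4 h1 F hBB) ((h1 X).1 hX) j ν
    have e2 := unique hQ' (h4 h1 F' hBB') ((h1 X).1 hX) j ν
    exact SetLike.ext_iff.1 (e1.trans e2.symm) z
  · intro h
    exact h3 (h2 d) fun j hj hjd => h j hj (by exact_mod_cast hjd)
  · rintro ⟨F, hBB⟩ j hj hjd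
    refine injective_iff.2 (injective_of_bb hQ' (h4 (h2 (2 * d - 1)) F hBB) (by omega) ?_)
    have : 2 * j - 1 ≤ 2 * d - 1 := by omega
    exact_mod_cast this

end Pool.Agent.Helper13BB.Conv
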