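import Pool.Agent.Helper13BB.Ind

/-!
# Decompositions of the diagonal into primitive parts and decomposable correspondences
-/

open CategoryTheory AlgebraicGeometry

universe u v w

namespace Pool.Agent.Helper13BB

open Pool.Agent.H914 Pool.Agent.H914.VarClass Pool.Agent.H914.VarClass.Obj Pool.Agent.W492.BB
  Pool.Agent.W550.Corr Pool.Agent.TH133 Pool.Agent.Y148.BB

set_option linter.unusedSectionVars false
set_option linter.unusedVariables false

variable {k : Type u} [Field k] {𝒱 : VarClass k}

variable {C : TheoryData.{u, v, 0} 𝒱 ℚ} [hC : IsChowProj C] {K : Type w} [Field K]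
  {H : WeilTheoryData.{u, v, w} C K} [hH : IsWeilProj H] {X Y Z W P P' S T R : 𝒱.Obj}

/-- The self-correspondences of `X` which factor through primitive parts of weight at most `D`, or
which are decomposable. -/
def decSet (Q : ∀ S : 𝒱.Obj, C.A (S.prod S) → Prop) (D : ℕ∞) (X : 𝒱.Obj) :
    Set (C.A (X.prod X)) :=
  {c | (∃ (n : ℕ) (P : 𝒱.Obj) (p : C.A (P.prod P)) (r : ℕ) (A : C.A (X.prod P))
      (B : C.A (P.prod X)), IsPart Q n P p ∧ (n : ℕ∞) ≤ D ∧
      C.Deg (X.dim - r) A ∧ C.Deg (n + r) B ∧ c = C.comp A (C.comp p B)) ∨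
    ∃ (r : ℕ) (a b : C.A X), C.Deg (X.dim - r) a ∧ C.Deg r b ∧ c = C.ext a b}

/-- The diagonal of `X` is a sum of correspondences of these two types. -/
def HasDec (Q : ∀ S : 𝒱.Obj, C.A (S.prod S) → Prop) (D : ℕ∞) (X : 𝒱.Obj) : Prop :=
  dg C X ∈ Submodule.span ℚ (decSet Q D X)

variable {Q : ∀ S : 𝒱.Obj, C.A (S.prod S) → Prop} (hQ : ∀ S q, Q S q → IsTranscendental H S q)

lemma HasDec.mono {D D' : ℕ∞} (h : HasDec Q D X) (hD : D ≤ D') : HasDec Q D' X := by
  refine Submodule.span_mono ?_ h
  rintro c (⟨n, P, p, r, A, B, h1, h2, h3⟩ | h1)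
  · exact Or.inl ⟨n, P, p, r, A, B, h1, h2.trans hD, h3⟩
  · exact Or.inr h1

include hC hH

lemma ext_one_one : C.ext (1 : C.A X) (1 : C.A Y) = 1 := by
  rw [TheoryData.ext, map_one, map_one, one_mul]

lemma graph_mem' (f : X ⟶ Y) : C.graph f ∈ C.gr (X.prod Y) Y.dim := by
  have h := C.push_mem (Obj.lift (𝟙 X) f) (C.one_mem X)
  exact gr_congr (C := C) (by rw [dim_prod]; push_cast; ring) h

include hQ

lemma tens_mem_span {D D' : ℕ∞} {a : C.A (X.prod X)} {b : C.A (Z.prod Z)}
    (ha : a ∈ decSet Q D X) (hb : b ∈ decSet Q D' Z) :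
    tens C a b ∈ decSet Q (D + D') (X.prod Z) := by
  rcases ha with ⟨n, P, p, r, A, B, hP, hn, hA, hB, rfl⟩ | ⟨r, v, u, hv, hu, rfl⟩
  · rcases hb with ⟨n', P', p', r', A', B', hP', hn', hA', hB', rfl⟩ | ⟨r', v', u', hv', hu', rfl⟩
    · left
      obtain ⟨R, ρ, f, g, hR, h1, h2, h3⟩ := exists_part_prod hP hP'
      have hd1 := (prim_part hQ hP).dim_eq
      have hd2 := (prim_part hQ hP').dim_eq
      have hd3 := (prim_part hQ hR).dim_eq
      refine ⟨n + n', R, ρ, r + r', C.comp (tens C A A') (C.graph f),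
        C.comp (tp C (C.graph f)) (tens C B B'), hR, ?_, ?_, ?_, ?_⟩
      · push_cast
        exact add_le_add hn hn'
      · have e1 := comp_mem C (e := -((r : ℤ) + r')) (e' := 0)
          (gr_congr (C := C) (j := (((X.prod Z).dim : ℕ) : ℤ) + -((r : ℤ) + r')) (by
            rw [dim_prod]; push_cast; ring) (tens_mem C hA hA'))
          (gr_congr (C := C) (j := (((P.prod P').dim : ℕ) : ℤ) + 0) (by
            rw [dim_prod, hd1, hd2, hd3]; push_cast; ring) (graph_mem' (H := H) f))
        exact gr_congr (C := C) (by push_cast; ring) e1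
      · have e1 := comp_mem C (e := 0) (e' := (r : ℤ) + r')
          (gr_congr (C := C) (j := ((R.dim : ℕ) : ℤ) + 0) (by ring)
            (tp_mem C (graph_mem' (H := H) f)))
          (gr_congr (C := C) (j := (((P.prod P').dim : ℕ) : ℤ) + ((r : ℤ) + r')) (by
            rw [dim_prod, hd1, hd2]; push_cast; ring) (tens_mem C hB hB'))
        exact gr_congr (C := C) (by rw [hd3]; push_cast; ring) e1
      · have e1 := wg_comp_comp f f (1 : C.A (P.prod P')) (1 : C.A (P.prod P')) ρ
        rw [ext_one_one (H := H), mul_one, ← h3] at e1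
        have e2 : wg C f (1 : C.A (P.prod P')) = C.graph f := rfl
        rw [e2] at e1
        rw [← tens_comp'', ← tens_comp'', ← e1]
        simp only [comp_assoc]
    · left
      refine ⟨n, P, p, r + r', C.comp (wg C (fst X Z) (C.pull (snd X Z) v')) A,
        C.comp B (tp C (wg C (fst X Z) (C.pull (snd X Z) u'))), hP, ?_, ?_, ?_, ?_⟩
      · exact hn.trans le_self_add
      · have e1 := comp_mem C (e := -(r' : ℤ)) (e' := -(r : ℤ))
          (gr_congr (C := C) (j := (((X.prod Z).dim : ℕ) : ℤ) + -(r' : ℤ)) (by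
            rw [dim_prod]; push_cast; ring) (wg_mem (fst X Z) (C.pull_mem (snd X Z) hv')))
          (gr_congr (C := C) (j := ((X.dim : ℕ) : ℤ) + -(r : ℤ)) (by ring) hA)
        exact gr_congr (C := C) (by push_cast; ring) e1
      · have e1 := comp_mem C (e := (r : ℤ)) (e' := (r' : ℤ))
          (gr_congr (C := C) (j := ((P.dim : ℕ) : ℤ) + (r : ℤ)) (by
            rw [(prim_part hQ hP).dim_eq]) hB)
          (gr_congr (C := C) (j := ((X.dim : ℕ) : ℤ) + (r' : ℤ)) (by ring)
            (tp_mem C (wg_mem (fst X Z) (C.pull_mem (snd X Z) hu'))))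
        exact gr_congr (C := C) (by rw [(prim_part hQ hP).dim_eq]; push_cast; ring) e1
      · rw [tens_ext_right]
        simp only [comp_assoc]
  · rcases hb with ⟨n', P', p', r', A', B', hP', hn', hA', hB', rfl⟩ | ⟨r', v', u', hv', hu', rfl⟩
    · left
      refine ⟨n', P', p', r + r', C.comp (wg C (snd X Z) (C.pull (fst X Z) v)) A',
        C.comp B' (tp C (wg C (snd X Z) (C.pull (fst X Z) u))), hP', ?_, ?_, ?_, ?_⟩
      · exact hn'.trans le_add_self
      · have e1 := comp_mem C (e := -(r : ℤ)) (e' := -(r' : ℤ))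
          (gr_congr (C := C) (j := (((X.prod Z).dim : ℕ) : ℤ) + -(r : ℤ)) (by
            rw [dim_prod]; push_cast; ring) (wg_mem (snd X Z) (C.pull_mem (fst X Z) hv)))
          (gr_congr (C := C) (j := ((Z.dim : ℕ) : ℤ) + -(r' : ℤ)) (by ring) hA')
        exact gr_congr (C := C) (by push_cast; ring) e1
      · have e1 := comp_mem C (e := (r' : ℤ)) (e' := (r : ℤ))
          (gr_congr (C := C) (j := ((P'.dim : ℕ) : ℤ) + (r' : ℤ)) (by
            rw [(prim_part hQ hP').dim_eq]) hB')
          (gr_congr (C := C) (j := ((Z.dim : ℕ) : ℤ) + (r : ℤ)) (by ring)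
            (tp_mem C (wg_mem (snd X Z) (C.pull_mem (fst X Z) hu))))
        exact gr_congr (C := C) (by rw [(prim_part hQ hP').dim_eq]; push_cast; ring) e1
      · rw [tens_ext_left]
        simp only [comp_assoc]
    · right
      refine ⟨r + r', C.ext v v', C.ext u u', ?_, ?_, tens_ext_ext _ _ _ _⟩
      · exact gr_congr (C := C) (by rw [dim_prod]; push_cast; ring) (ext_mem' hv hv')
      · exact gr_congr (C := C) (by push_cast; ring) (ext_mem' hu hu')

lemma HasDec.prod {D D' : ℕ∞} (h : HasDec Q D X) (h' : HasDec Q D' Z) :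
    HasDec Q (D + D') (X.prod Z) := by
  unfold HasDec at *
  rw [← tens_dg C]
  have h1 : ∀ a ∈ Submodule.span ℚ (decSet Q D X), ∀ b ∈ Submodule.span ℚ (decSet Q D' Z),
      tens C a b ∈ Submodule.span ℚ (decSet Q (D + D') (X.prod Z)) := by
    intro a ha
    induction ha using Submodule.span_induction with
    | mem a ha =>
      intro b hb
      induction hb using Submodule.span_induction with
      | mem b hb => exact Submodule.subset_span (tens_mem_span hQ ha hb)
      | zero =>
        rw [tens_zero_right]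
        exact Submodule.zero_mem _
      | add x y _ _ hx hy =>
        rw [tens_add_right]
        exact Submodule.add_mem _ hx hy
      | smul c x _ hx =>
        rw [tens_smul_right]
        exact Submodule.smul_mem _ _ hx
    | zero =>
      intro b _
      rw [tens_zero_left]
      exact Submodule.zero_mem _
    | add x y _ _ hx hy =>
      intro b hb
      have e1 : tens C (x + y) b = tens C x b + tens C y b := by
        rw [← tensL_apply, map_add, LinearMap.add_apply]
        rfl
      rw [e1]
      exact Submodule.add_mem _ (hx b hb) (hy b hb)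
    | smul c x _ hx =>
      intro b hb
      have e1 : tens C (c • x) b = c • tens C x b := by
        rw [← tensL_apply, map_smul, LinearMap.smul_apply]
        rfl
      rw [e1]
      exact Submodule.smul_mem _ _ (hx b hb)
  exact h1 _ h _ h'

lemma hasDec_curve (hT : T.dim = 1) : HasDec Q 1 T := by
  obtain ⟨o, ho, hd1, hd2⟩ := exists_deg_one C T
  have hd : HasDegree C o 1 := fun Z => ⟨by rw [one_smul]; exact hd2 Z, by
    rw [one_smul]; exact hd1 Z⟩
  have ho' : C.Deg 1 o := by
    rw [hT] at ho
    exact_mod_cast ho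
  unfold HasDec
  have h2 : dg C T = C.ext o 1 + oddProj C o + C.ext 1 o := by
    rw [oddProj]
    abel
  rw [h2]
  refine Submodule.add_mem _ (Submodule.add_mem _ (Submodule.subset_span ?_)
    (Submodule.subset_span ?_)) (Submodule.subset_span ?_)
  · right
    refine ⟨0, o, 1, ?_, ?_, rfl⟩
    · rw [hT]
      exact_mod_cast ho'
    · exact_mod_cast C.one_mem T
  · left
    refine ⟨1, T, oddProj C o, 0, dg C T, dg C T,
      IsPart.factor _ _ _ (IsFactor.curve T o hT ho' hd), le_rfl, ?_, ?_, ?_⟩
    · exact gr_congr (C := C) (by push_cast; ring) (dg_mem C T)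
    · exact gr_congr (C := C) (by rw [hT]; rfl) (dg_mem C T)
    · rw [dg_comp, comp_dg]
  · right
    refine ⟨1, 1, o, ?_, ?_, rfl⟩
    · rw [hT]
      exact_mod_cast C.one_mem T
    · exact_mod_cast ho'

lemma hasDec_surface {q : C.A (S.prod S)} (h : Q S q) : HasDec Q 2 S := by
  have hdim := (hQ _ _ h).dim_eq
  obtain ⟨x, π, hx, hxd, -, hπ, hπ0, hπ4, -, h2, h1, h3⟩ := (hQ _ _ h).exists_ck
  unfold HasDec
  have e1 : dg C S = π 0 + π 1 + π 2 + π 3 + π 4 := by
    rw [← hπ.sum, hdim]
    have e : Finset.range (2 * 2 + 1) = Finset.range 5 := rfl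
    rw [e, Finset.sum_range_succ, Finset.sum_range_succ, Finset.sum_range_succ,
      Finset.sum_range_succ, Finset.sum_range_succ, Finset.sum_range_zero, zero_add]
  have e2 : π 2 = q + (π 2 - q) := by abel
  have m0 : π 0 ∈ Submodule.span ℚ (decSet Q 2 S) := by
    rw [hπ0]
    refine Submodule.subset_span (Or.inr ⟨0, x, 1, ?_, ?_, rfl⟩)
    · rw [hdim]
      exact_mod_cast hx
    · exact_mod_cast C.one_mem S
  have m4 : π 4 ∈ Submodule.span ℚ (decSet Q 2 S) := by
    rw [hπ4]
    refine Submodule.subset_span (Or.inr ⟨2, 1, x, ?_, ?_, rfl⟩)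
    · rw [hdim]
      exact_mod_cast C.one_mem S
    · exact_mod_cast hx
  have mq : q ∈ Submodule.span ℚ (decSet Q 2 S) := by
    refine Submodule.subset_span (Or.inl ⟨2, S, q, 0, dg C S, dg C S,
      IsPart.factor _ _ _ (IsFactor.surface S q h), le_rfl, ?_, ?_, ?_⟩)
    · exact gr_congr (C := C) (by push_cast; ring) (dg_mem C S)
    · exact gr_congr (C := C) (by rw [hdim]; rfl) (dg_mem C S)
    · rw [dg_comp, comp_dg]
  have m2 : π 2 - q ∈ Submodule.span ℚ (decSet Q 2 S) := by
    refine Submodule.span_mono ?_ h2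
    rintro c ⟨A, B, hA, hB, rfl⟩
    refine Or.inr ⟨1, A, B, ?_, ?_, rfl⟩
    · rw [hdim]
      exact_mod_cast hA
    · exact_mod_cast hB
  have m1 : π 1 ∈ Submodule.span ℚ (decSet Q 2 S) := by
    refine Submodule.span_mono ?_ h1
    rintro c ⟨T, o, f, g, hT, ho, hd, hf, hg, rfl⟩
    refine Or.inl ⟨1, T, oddProj C o, 0, f, g,
      IsPart.factor _ _ _ (IsFactor.curve T o hT ho hd), ?_, ?_, ?_, rfl⟩
    · exact_mod_cast one_le_two
    · rw [hdim]
      exact_mod_cast hf
    · exact_mod_cast hg
  have m3 : π 3 ∈ Submodule.span ℚ (decSet Q 2 S) := by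
    refine Submodule.span_mono ?_ h3
    rintro c ⟨T, o, f, g, hT, ho, hd, hf, hg, rfl⟩
    refine Or.inl ⟨1, T, oddProj C o, 1, f, g,
      IsPart.factor _ _ _ (IsFactor.curve T o hT ho hd), ?_, ?_, ?_, rfl⟩
    · exact_mod_cast one_le_two
    · rw [hdim]
      exact_mod_cast hf
    · exact_mod_cast hg
  rw [e1, e2]
  exact Submodule.add_mem _ (Submodule.add_mem _ (Submodule.add_mem _ (Submodule.add_mem _ m0 m1)
    (Submodule.add_mem _ mq m2)) m3) m4

lemma hasDec_factor (h : T.dim = 1 ∨ ∃ q, Q T q) : HasDec Q T.dim T := by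
  by_cases hT : T.dim = 1
  · rw [hT]
    exact_mod_cast hasDec_curve hQ hT
  · obtain ⟨q, hq⟩ := h.resolve_left hT
    rw [(hQ _ _ hq).dim_eq]
    exact_mod_cast hasDec_surface hQ hq

/-- The diagonal of a product of curves and surfaces has a decomposition. -/
theorem hasDec_product (h : IsProductOfCurvesAndSurfaces Q P) :
    HasDec Q P.dim P := by
  induction h with
  | factor T hT => exact hasDec_factor hQ hT
  | prod P T hP hT ih =>
    rw [dim_prod]
    push_cast
    exact ih.prod hQ (hasDec_factor hQ hT)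

/-- The diagonal of a direct summand has a decomposition. -/
theorem HasDec.summand {D : ℕ∞} (h : HasDec Q D P) (f : C.A (X.prod P)) (g : C.A (P.prod X))
    (hf : C.Deg X.dim f) (hg : C.Deg P.dim g) (hfg : C.comp f g = dg C X) : HasDec Q D X := by
  unfold HasDec at *
  have h1 : ∀ c ∈ Submodule.span ℚ (decSet Q D P), C.comp f (C.comp c g) ∈
      Submodule.span ℚ (decSet Q D X) := by
    intro c hc
    induction hc using Submodule.span_induction with
    | mem c hc =>
      apply Submodule.subset_span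
      rcases hc with ⟨n, R, p, r, A, B, hR, hn, hA, hB, rfl⟩ | ⟨r, a, b, ha, hb, rfl⟩
      · left
        refine ⟨n, R, p, r, C.comp f A, C.comp B g, hR, hn, ?_, ?_, ?_⟩
        · have e1 := comp_mem C (e := 0) (e' := -(r : ℤ))
            (gr_congr (C := C) (j := ((X.dim : ℕ) : ℤ) + 0) (by ring) hf)
            (gr_congr (C := C) (j := ((P.dim : ℕ) : ℤ) + -(r : ℤ)) (by ring) hA)
          exact gr_congr (C := C) (by ring) e1
        · have e1 := comp_mem C (e := (r : ℤ)) (e' := 0)
            (gr_congr (C := C) (j := ((R.dim : ℕ) : ℤ) + (r : ℤ)) (by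
              rw [(prim_part hQ hR).dim_eq]) hB)
            (gr_congr (C := C) (j := ((P.dim : ℕ) : ℤ) + 0) (by ring) hg)
          exact gr_congr (C := C) (by rw [(prim_part hQ hR).dim_eq]; ring) e1
        · simp only [comp_assoc]
      · right
        refine ⟨r, C.act (tp C f) a, C.act g b, ?_, ?_, ?_⟩
        · have e1 := act_mem' C (e := (X.dim : ℤ) - P.dim) (Γ := tp C f)
            (gr_congr (C := C) (by ring) (tp_mem C hf)) ha
          exact gr_congr (C := C) (by ring) e1
        · have e1 := act_mem' C (e := 0) (Γ := g) (gr_congr (C := C) (by ring) hg) hb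
          exact gr_congr (C := C) (by ring) e1
        · rw [ext_comp, comp_ext]
    | zero =>
      rw [zero_comp, comp_zero]
      exact Submodule.zero_mem _
    | add x y _ _ hx hy =>
      rw [add_comp, comp_add]
      exact Submodule.add_mem _ hx hy
    | smul c x _ hx =>
      have e1 : C.comp (c • x) g = c • C.comp x g := by
        rw [← compL_apply, map_smul, LinearMap.smul_apply]
        rfl
      have e2 : C.comp f (c • C.comp x g) = c • C.comp f (C.comp x g) := map_smul (compL C f) c _
      rw [e1, e2]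
      exact Submodule.smul_mem _ _ hx
  have h2 := h1 _ h
  rwa [dg_comp, hfg] at h2

/-- **Induction principle**: a homologically trivial class on `X` is a sum of classes coming from
primitive parts. -/
theorem HasDec.induct {D : ℕ∞} (h : HasDec Q D X) {j : ℕ} {z : C.A X} (hz : C.Deg j z)
    (hcl : H.cl z = 0) (M : Submodule ℚ (C.A X))
    (hM : ∀ (n : ℕ) (P : 𝒱.Obj) (p : C.A (P.prod P)) (r : ℕ) (A : C.A (X.prod P))
      (B : C.A (P.prod X)), IsPart Q n P p → (n : ℕ∞) ≤ D → r ≤ j →
      C.Deg (X.dim - r) A → C.Deg (n + r) B → C.act B (C.act p (C.act A z)) ∈ M) : z ∈ M := by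
  have h1 : ∀ c ∈ Submodule.span ℚ (decSet Q D X), C.act c z ∈ M := by
    intro c hc
    induction hc using Submodule.span_induction with
    | mem c hc =>
      rcases hc with ⟨n, R, p, r, A, B, hR, hn, hA, hB, rfl⟩ | ⟨r, a, b, ha, hb, rfl⟩
      · rw [C.act_comp, C.act_comp]
        by_cases hr : r ≤ j
        · exact hM n R p r A B hR hn hr hA hB
        · have e1 := act_mem' C (e := -(r : ℤ)) (Γ := A) (gr_congr (C := C) (by ring) hA) hz
          rw [C.gr_neg R _ (by omega)] at e1
          rw [(Submodule.mem_bot _).1 e1, TheoryData.act_map_zero, TheoryData.act_map_zero]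
          exact Submodule.zero_mem _
      · have e1 : C.act (C.ext a b) z = 0 := by
          have e2 : a * z ∈ C.gr X ((X.dim : ℤ) - r + j) := C.mul_mem ha hz
          by_cases hr : (X.dim : ℤ) - r + j = X.dim
          · rw [act_ext' (q := 0), zero_smul]
            apply hasDegree_zero_of_cl H
            · rw [hr] at e2
              exact e2
            · rw [map_mul, hcl, mul_zero]
          · exact act_ext_zero_of_lt e2 hr
        rw [e1]
        exact Submodule.zero_mem _
    | zero =>
      rw [TheoryData.act_zero]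
      exact Submodule.zero_mem _
    | add x y _ _ hx hy =>
      rw [TheoryData.act_add]
      exact Submodule.add_mem _ hx hy
    | smul c x _ hx =>
      have e1 : C.act (c • x) z = c • C.act x z := by
        rw [← actB_apply, map_smul, LinearMap.smul_apply]
        rfl
      rw [e1]
      exact Submodule.smul_mem _ _ hx
  have h2 := h1 _ h
  rwa [act_dg] at h2

end Pool.Agent.Helper13BB
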