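import Pool.Agent.Helper13BB.Dec

/-!
# The filtration given by the primitive parts
-/

open CategoryTheory AlgebraicGeometry

universe u v w

namespace Pool.Agent.Helper13BB

open Pool.Agent.H914 Pool.Agent.H914.VarClass Pool.Agent.H914.VarClass.Obj Pool.Agent.W492.BB
  Pool.Agent.W550.Corr Pool.Agent.TH133 Pool.Agent.Y148.BB

set_option linter.unusedSectionVars false
set_option linter.unusedVariables false

variable {k : Type u} [Field k] {𝒱 : VarClass k}

variable {C : TheoryData.{u, v, 0} 𝒱 ℚ} [hC : IsChowProj C] {K : Type w} [Field K]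
  {H : WeilTheoryData.{u, v, w} C K} [hH : IsWeilProj H] {X Y Z W P P' S T R : 𝒱.Obj}
  {N : ∀ X : 𝒱.Obj, ℕ → Submodule ℚ (C.A X)}

/-- The generators of the step `F^ν CH^j(X)`: the classes `B_* y`, where `y ∈ CH^i(P)`, `p_* y = y`,
`(P, p)` is a primitive part of weight `n ≤ D` with `2 i - n ≥ ν`, and `B` is a correspondence from
`P` to `X`. -/
def filSet (Q : ∀ S : 𝒱.Obj, C.A (S.prod S) → Prop) (D : ℕ∞) (X : 𝒱.Obj) (j ν : ℕ) :
    Set (C.A X) :=
  {z | ∃ (n i : ℕ) (P : 𝒱.Obj) (p : C.A (P.prod P)) (B : C.A (P.prod X)) (y : C.A P),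
    IsPart Q n P p ∧ (n : ℕ∞) ≤ D ∧ ν + n ≤ 2 * i ∧ C.Deg (n + j - i) B ∧
    C.Deg i y ∧ C.act p y = y ∧ z = C.act B y}

/-- The filtration given by the primitive parts. -/
noncomputable def partFil (Q : ∀ S : 𝒱.Obj, C.A (S.prod S) → Prop) (D : ℕ∞) (X : 𝒱.Obj)
    (j ν : ℕ) : Submodule ℚ (C.A X) :=
  if ν = 0 then C.gr X j else Submodule.span ℚ (filSet Q D X j ν)

variable {Q : ∀ S : 𝒱.Obj, C.A (S.prod S) → Prop} (hQ : ∀ S q, Q S q → IsTranscendental H S q)

lemma partFil_zero (D : ℕ∞) (X : 𝒱.Obj) (j : ℕ) : partFil Q D X j 0 = C.gr X j := if_pos rfl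

lemma partFil_pos (D : ℕ∞) (X : 𝒱.Obj) (j : ℕ) {ν : ℕ} (hν : ν ≠ 0) :
    partFil Q D X j ν = Submodule.span ℚ (filSet Q D X j ν) := if_neg hν

include hC hH hQ

lemma filSet_deg {D : ℕ∞} {j ν : ℕ} {z : C.A X} (hz : z ∈ filSet Q D X j ν) : C.Deg j z := by
  obtain ⟨n, i, P, p, B, y, hP, hn, hν, hB, hy, hpy, rfl⟩ := hz
  have e1 := act_mem' C (e := (j : ℤ) - i) (Γ := B)
    (gr_congr (C := C) (by rw [(prim_part hQ hP).dim_eq]; ring) hB) hy
  exact gr_congr (C := C) (by ring) e1

lemma filSet_cl {D : ℕ∞} {j ν : ℕ} (hν : ν ≠ 0) {z : C.A X} (hz : z ∈ filSet Q D X j ν) :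
    H.cl z = 0 := by
  obtain ⟨n, i, P, p, B, y, hP, hn, hν', hB, hy, hpy, rfl⟩ := hz
  exact cl_act_zero ((prim_part hQ hP).cl_zero (by omega) hy hpy)

lemma partFil_one_le {D : ℕ∞} {j ν : ℕ} (hν : ν ≠ 0) {z : C.A X} (hz : z ∈ partFil Q D X j ν) :
    C.Deg j z ∧ H.cl z = 0 := by
  rw [partFil_pos D X j hν] at hz
  have h1 : Submodule.span ℚ (filSet Q D X j ν) ≤ C.gr X j ⊓ homKer H X :=
    Submodule.span_le.2 fun x hx => ⟨filSet_deg hQ hx, filSet_cl hQ hν hx⟩
  exact h1 hz

lemma partFil_anti (D : ℕ∞) (X : 𝒱.Obj) (j ν : ℕ) :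
    partFil Q D X j (ν + 1) ≤ partFil Q D X j ν := by
  by_cases hν : ν = 0
  · subst hν
    rw [partFil_zero]
    intro z hz
    exact (partFil_one_le hQ (by norm_num) hz).1
  · rw [partFil_pos D X j hν, partFil_pos D X j (by omega)]
    apply Submodule.span_mono
    rintro z ⟨n, i, P, p, B, y, hP, hn, hν', h⟩
    exact ⟨n, i, P, p, B, y, hP, hn, by omega, h⟩

lemma partFil_stable {D : ℕ∞} {j i ν : ℕ} {Γ : C.A (X.prod Y)} (hΓ : C.Deg (X.dim + i - j) Γ)
    {z : C.A X} (hz : z ∈ partFil Q D X j ν) : C.act Γ z ∈ partFil Q D Y i ν := by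
  by_cases hν : ν = 0
  · subst hν
    rw [partFil_zero] at *
    have e1 := act_mem' C (e := (i : ℤ) - j) (Γ := Γ) (gr_congr (C := C) (by ring) hΓ) hz
    exact gr_congr (C := C) (by ring) e1
  · rw [partFil_pos _ _ _ hν] at *
    induction hz using Submodule.span_induction with
    | mem z hz =>
      obtain ⟨n, a, P, p, B, y, hP, hn, hν', hB, hy, hpy, rfl⟩ := hz
      apply Submodule.subset_span
      refine ⟨n, a, P, p, C.comp B Γ, y, hP, hn, hν', ?_, hy, hpy, (C.act_comp _ _ _).symm⟩
      have e1 := comp_mem C (e := (j : ℤ) - a) (e' := (i : ℤ) - j)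
        (gr_congr (C := C) (j := ((P.dim : ℕ) : ℤ) + ((j : ℤ) - a)) (by
          rw [(prim_part hQ hP).dim_eq]; ring) hB)
        (gr_congr (C := C) (j := ((X.dim : ℕ) : ℤ) + ((i : ℤ) - j)) (by ring) hΓ)
      exact gr_congr (C := C) (by rw [(prim_part hQ hP).dim_eq]; ring) e1
    | zero =>
      rw [TheoryData.act_map_zero]
      exact Submodule.zero_mem _
    | add x y _ _ hx hy =>
      rw [act_map_add]
      exact Submodule.add_mem _ hx hy
    | smul c x _ hx =>
      rw [act_map_smul]
      exact Submodule.smul_mem _ _ hx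

variable (hN : IsAbelJacobiKernel H N) {D : ℕ∞}
  (hV : ∀ c : ℕ, (c : ℕ∞) ≤ D → ∀ (m : ℕ) (R : 𝒱.Obj) (r : C.A (R.prod R)),
    IsPart Q m R r → 2 * c ≤ m + 1 → Van N c R r)

include hN hV

/-- Bookkeeping: the component of a class in a primitive part. -/
lemma comp_deg {n r j : ℕ} {p : C.A (P.prod P)} {A : C.A (X.prod P)} {z : C.A X}
    (hP : IsPart Q n P p) (hr : r ≤ j) (hA : C.Deg (X.dim - r) A)
    (hz : C.Deg j z) : C.Deg ((j - r : ℕ) : ℤ) (C.act p (C.act A z)) ∧
      C.act p (C.act p (C.act A z)) = C.act p (C.act A z) := by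
  constructor
  · have e1 := act_mem' C (e := -(r : ℤ)) (Γ := A) (gr_congr (C := C) (by ring) hA) hz
    exact act_mem0 C (prim_part hQ hP).deg (gr_congr (C := C) (by rw [Nat.cast_sub hr]; ring) e1)
  · rw [← C.act_comp, (prim_part hQ hP).idem]

lemma partFil_one (hX : HasDec Q D X) {j : ℕ} {z : C.A X} (hz : C.Deg j z) (hcl : H.cl z = 0) :
    z ∈ partFil Q D X j 1 := by
  rw [partFil_pos _ _ _ one_ne_zero]
  refine hX.induct hQ hz hcl _ fun n P p r A B hP hn hr hA hB => ?_
  obtain ⟨h1, h2⟩ := comp_deg hQ hN hV hP hr hA hz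
  have h3 : H.cl (C.act p (C.act A z)) = 0 := cl_act_zero (cl_act_zero hcl)
  by_cases h4 : 1 + n ≤ 2 * (j - r)
  · apply Submodule.subset_span
    refine ⟨n, j - r, P, p, B, _, hP, hn, h4, ?_, h1, h2, rfl⟩
    exact gr_congr (C := C) (by rw [Nat.cast_sub hr]; ring) hB
  · have h5 : C.act p (C.act A z) = 0 := by
      refine hV (j - r) (le_trans ?_ hn) n P p hP (by omega) _ ?_ h2
      · have : j - r ≤ n := by omega
        exact_mod_cast this
      · exact (prim_part hQ hP).mem_of_cl hN (by omega) h1 h3 h2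
    rw [h5, TheoryData.act_map_zero]
    exact Submodule.zero_mem _

lemma partFil_two (hX : HasDec Q D X) (j : ℕ) : partFil Q D X j 2 = N X j := by
  apply le_antisymm
  · rw [partFil_pos _ _ _ two_ne_zero, Submodule.span_le]
    rintro z ⟨n, i, P, p, B, y, hP, hn, hν, hB, hy, hpy, rfl⟩
    refine hN.stable P X i j B ?_ y ?_
    · rw [(prim_part hQ hP).dim_eq]
      exact hB
    · exact (prim_part hQ hP).mem_auto hN (by omega) (by omega) hy hpy
  · intro z hz
    obtain ⟨hz1, hz2⟩ := hN.deg X j z hz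
    rw [partFil_pos _ _ _ two_ne_zero]
    refine hX.induct hQ hz1 hz2 _ fun n P p r A B hP hn hr hA hB => ?_
    obtain ⟨h1, h2⟩ := comp_deg hQ hN hV hP hr hA hz1
    by_cases h4 : 2 + n ≤ 2 * (j - r)
    · apply Submodule.subset_span
      refine ⟨n, j - r, P, p, B, _, hP, hn, h4, ?_, h1, h2, rfl⟩
      exact gr_congr (C := C) (by rw [Nat.cast_sub hr]; ring) hB
    · have h0 := one_le_part hP
      have h5 : C.act p (C.act A z) = 0 := by
        refine hV (j - r) (le_trans ?_ hn) n P p hP (by omega) _ ?_ h2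
        · have : j - r ≤ n := by omega
          exact_mod_cast this
        · apply mem_act0 hN (prim_part hQ hP).deg
          exact hN.stable X P j (j - r) A (gr_congr (C := C) (by
            rw [Nat.cast_sub hr]; ring) hA) z hz
      rw [h5, TheoryData.act_map_zero]
      exact Submodule.zero_mem _

/-- The key computation: a correspondence `γ` from a primitive part, composed with the projection to
a primitive part. -/
lemma key_zero {n m i i' : ℕ} {p : C.A (P.prod P)} {p' : C.A (P'.prod P')}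
    (hP : IsPart Q n P p) (hP' : IsPart Q m P' p')
    (hn : (n : ℕ∞) ≤ D) (hm : (m : ℕ∞) ≤ D) {γ : C.A (P.prod P')}
    (hγ : C.Deg ((n : ℤ) + i' - i) γ)
    (hc : 2 * i' + n < 2 * i + m ∨ (2 * i' + n = 2 * i + m ∧ H.cl (C.comp p γ) = 0)) (y : C.A P)
    (hy : C.act p y = y) : C.act p' (C.act γ y) = 0 := by
  have h1 : C.act p' (C.act γ y) = C.act (C.comp (C.comp p γ) p') y := by
    rw [C.act_comp, C.act_comp, hy]
  have h2 : C.comp (C.comp p γ) p' = 0 := by
    refine corr_zero hN hQ hV hP hP' hn hm (c := (n : ℤ) + i' - i) ?_ ?_ ?_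
    · have e1 := comp_mem C (e := 0) (e' := (i' : ℤ) - i)
        (gr_congr (C := C) (j := ((P.dim : ℕ) : ℤ) + 0) (by ring) (prim_part hQ hP).deg)
        (gr_congr (C := C) (j := ((P.dim : ℕ) : ℤ) + ((i' : ℤ) - i)) (by
          rw [(prim_part hQ hP).dim_eq]; ring) hγ)
      have e2 := comp_mem C (e := 0 + ((i' : ℤ) - i)) (e' := 0) e1
        (gr_congr (C := C) (j := ((P'.dim : ℕ) : ℤ) + 0) (by ring) (prim_part hQ hP').deg)
      exact gr_congr (C := C) (by rw [(prim_part hQ hP).dim_eq]; ring) e2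
    · rw [← comp_assoc, ← comp_assoc, (prim_part hQ hP).idem, comp_assoc C _ p' p',
        (prim_part hQ hP').idem]
    · rcases hc with hc | ⟨hc, hcl⟩
      · left
        omega
      · right
        refine ⟨by omega, ?_⟩
        apply hom_zero_of_act H
        intro a
        rw [actH_comp, hcl, TheoryData.act_zero, TheoryData.act_map_zero]
  rw [h1, h2, TheoryData.act_zero]

lemma partFil_top (hX : HasDec Q D X) (j : ℕ) : partFil Q D X j (j + 1) = ⊥ := by
  rw [partFil_pos _ _ _ (by omega), Submodule.span_eq_bot]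
  rintro z hz
  have hz1 := filSet_deg hQ hz
  have hz2 := filSet_cl hQ (by omega) hz
  obtain ⟨n, i, P, p, B, y, hP, hn, hν, hB, hy, hpy, rfl⟩ := hz
  rw [← Submodule.mem_bot ℚ]
  refine hX.induct hQ hz1 hz2 _ fun m P' p' r A' B' hP' hm hr hA' hB' => ?_
  rw [Submodule.mem_bot]
  obtain ⟨h1, h2⟩ := comp_deg hQ hN hV hP' hr hA' hz1
  have h5 : C.act p' (C.act A' (C.act B y)) = 0 := by
    by_cases hm' : j - r ≤ m
    · rw [← C.act_comp B A']
      refine key_zero hQ hN hV hP hP' hn hm (i := i) (i' := j - r) ?_ (Or.inl (by omega)) y hpy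
      have e1 := comp_mem C (e := (j : ℤ) - i) (e' := -(r : ℤ))
        (gr_congr (C := C) (j := ((P.dim : ℕ) : ℤ) + ((j : ℤ) - i)) (by
          rw [(prim_part hQ hP).dim_eq]; ring) hB)
        (gr_congr (C := C) (j := ((X.dim : ℕ) : ℤ) + -(r : ℤ)) (by ring) hA')
      exact gr_congr (C := C) (by rw [(prim_part hQ hP).dim_eq, Nat.cast_sub hr]; ring) e1
    · exact hC.gr_top P' _ _ h1 (by rw [(prim_part hQ hP').dim_eq]; omega)
  rw [h5, TheoryData.act_map_zero]

lemma partFil_shift (hY : HasDec Q D Y) {j i ν : ℕ} {Γ : C.A (X.prod Y)}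
    (hΓ : C.Deg (X.dim + i - j) Γ) (hk : Kills H Γ (2 * j - ν)) {z : C.A X}
    (hz : z ∈ partFil Q D X j ν) : C.act Γ z ∈ partFil Q D Y i (ν + 1) := by
  by_cases hν : ν = 0
  · subst hν
    rw [partFil_zero] at hz
    apply partFil_one hQ hN hV hY
    · have e1 := act_mem' C (e := (i : ℤ) - j) (Γ := Γ) (gr_congr (C := C) (by ring) hΓ) hz
      exact gr_congr (C := C) (by ring) e1
    · rw [cl_act H]
      apply hk
      have := H.cl_mem hz
      simpa using this
  · rw [partFil_pos _ _ _ hν] at hz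
    induction hz using Submodule.span_induction with
    | mem z hz =>
      obtain ⟨n, a, P, p, B, y, hP, hn, hν', hB, hy, hpy, rfl⟩ := hz
      have hBΓ : C.Deg ((n : ℤ) + i - a) (C.comp B Γ) := by
        have e1 := comp_mem C (e := (j : ℤ) - a) (e' := (i : ℤ) - j)
          (gr_congr (C := C) (j := ((P.dim : ℕ) : ℤ) + ((j : ℤ) - a)) (by
            rw [(prim_part hQ hP).dim_eq]; ring) hB)
          (gr_congr (C := C) (j := ((X.dim : ℕ) : ℤ) + ((i : ℤ) - j)) (by ring) hΓ)
        exact gr_congr (C := C) (by rw [(prim_part hQ hP).dim_eq]; ring) e1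
      have hmem : C.act Γ (C.act B y) = C.act (C.comp B Γ) y := (C.act_comp _ _ _).symm
      rw [hmem, partFil_pos _ _ _ (by omega)]
      by_cases h1 : ν + 1 + n ≤ 2 * a
      · apply Submodule.subset_span
        exact ⟨n, a, P, p, C.comp B Γ, y, hP, hn, h1, hBΓ, hy, hpy, rfl⟩
      · have h2 : 2 * a = ν + n := by omega
        have hγ : H.cl (C.comp p (C.comp B Γ)) = 0 := by
          apply hom_zero_of_act H
          have h3 : H.actL (H.cl (C.comp p (C.comp B Γ))) = 0 := by
            apply ext_gr H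
            intro m b hb
            rw [LinearMap.zero_apply]
            change H.act (H.cl (C.comp p (C.comp B Γ))) b = 0
            by_cases hm : m = n
            · subst hm
              rw [actH_comp, actH_comp]
              apply hk
              have e1 := actH_mem H (e := 0) (Γ := p)
                (by rw [add_zero]; exact (prim_part hQ hP).deg) hb
              have e2 := actH_mem H (e := (j : ℤ) - a) (Γ := B)
                (gr_congr (C := C) (by rw [(prim_part hQ hP).dim_eq]; ring) hB) e1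
              have e3 : (n : ℤ) + 2 * 0 + 2 * ((j : ℤ) - a) = 2 * j - ν := by omega
              rw [e3] at e2
              exact e2
            · rw [actH_comp, (prim_part hQ hP).act_ne m b hm hb, TheoryData.act_map_zero]
          intro b
          exact LinearMap.congr_fun h3 b
        have hw1 : C.Deg i (C.act (C.comp B Γ) y) := by
          have e1 := act_mem' C (e := (i : ℤ) - a) (Γ := C.comp B Γ)
            (gr_congr (C := C) (by rw [(prim_part hQ hP).dim_eq]; ring) hBΓ) hy
          exact gr_congr (C := C) (by ring) e1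
        have hw2 : H.cl (C.act (C.comp B Γ) y) = 0 :=
          cl_act_zero ((prim_part hQ hP).cl_zero (by omega) hy hpy)
        refine hY.induct hQ hw1 hw2 _ fun m P' p' r A' B' hP' hm hr hA' hB' => ?_
        obtain ⟨h4, h5⟩ := comp_deg hQ hN hV hP' hr hA' hw1
        by_cases h6 : ν + 1 + m ≤ 2 * (i - r)
        · apply Submodule.subset_span
          refine ⟨m, i - r, P', p', B', _, hP', hm, h6, ?_, h4, h5, rfl⟩
          exact gr_congr (C := C) (by rw [Nat.cast_sub hr]; ring) hB'
        · have h7 : C.act p' (C.act A' (C.act (C.comp B Γ) y)) = 0 := by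
            rw [← C.act_comp (C.comp B Γ) A']
            refine key_zero hQ hN hV hP hP' hn hm (i := a) (i' := i - r) ?_ ?_ y hpy
            · have e1 := comp_mem C (e := (i : ℤ) - a) (e' := -(r : ℤ))
                (gr_congr (C := C) (j := ((P.dim : ℕ) : ℤ) + ((i : ℤ) - a)) (by
                  rw [(prim_part hQ hP).dim_eq]; ring) hBΓ)
                (gr_congr (C := C) (j := ((Y.dim : ℕ) : ℤ) + -(r : ℤ)) (by ring) hA')
              exact gr_congr (C := C) (by rw [(prim_part hQ hP).dim_eq, Nat.cast_sub hr]; ring) e1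
            · by_cases h8 : 2 * (i - r) + n < 2 * a + m
              · exact Or.inl h8
              · right
                refine ⟨by omega, ?_⟩
                apply hom_zero_of_act H
                intro b
                rw [← comp_assoc, actH_comp, hγ, TheoryData.act_zero, TheoryData.act_map_zero]
          rw [h7, TheoryData.act_map_zero]
          exact Submodule.zero_mem _
    | zero =>
      rw [TheoryData.act_map_zero]
      exact Submodule.zero_mem _
    | add x y _ _ hx hy =>
      rw [act_map_add]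
      exact Submodule.add_mem _ hx hy
    | smul c x _ hx =>
      rw [act_map_smul]
      exact Submodule.smul_mem _ _ hx

/-- **The filtration given by the primitive parts is a Bloch-Beilinson filtration.** -/
theorem bb_partFil : IsBlochBeilinsonOn H N (fun X => HasDec Q D X) (partFil Q D) where
  anti X _ j ν := partFil_anti hQ D X j ν
  zero X _ j z := by rw [partFil_zero]
  one X hX j z := ⟨fun h => partFil_one_le hQ one_ne_zero h, fun h => partFil_one hQ hN hV hX h.1 h.2⟩
  two X hX j := partFil_two hQ hN hV hX j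
  top X hX j := partFil_top hQ hN hV hX j
  stable X Y _ _ j i ν Γ hΓ z hz := partFil_stable hQ hΓ hz
  shift X Y _ hY j i ν Γ hΓ hk z hz := partFil_shift hQ hN hV hY hΓ hk hz

end Pool.Agent.Helper13BB
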