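import Pool.Agent.Helper13BB.Iso

/-!
# The induction: vanishing of the kernels of the Abel-Jacobi maps on primitive parts
-/

open CategoryTheory AlgebraicGeometry

universe u v w

namespace Pool.Agent.Helper13BB

open Pool.Agent.H914 Pool.Agent.H914.VarClass Pool.Agent.H914.VarClass.Obj Pool.Agent.W492.BB
  Pool.Agent.W550.Corr Pool.Agent.TH133 Pool.Agent.Y148.BB

set_option linter.unusedSectionVars false
set_option linter.unusedVariables false

variable {k : Type u} [Field k] {𝒱 : VarClass k}

variable {C : TheoryData.{u, v, 0} 𝒱 ℚ} [hC : IsChowProj C] {K : Type w} [Field K]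
  {H : WeilTheoryData.{u, v, w} C K} [hH : IsWeilProj H] {X Y Z W P P' S T R : 𝒱.Obj}
  {N : ∀ X : 𝒱.Obj, ℕ → Submodule ℚ (C.A X)} (hN : IsAbelJacobiKernel H N)

/-- The kernel of the Abel-Jacobi map vanishes on the cycles of codimension `c` of `(P, p)`. -/
def Van (N : ∀ X : 𝒱.Obj, ℕ → Submodule ℚ (C.A X)) (c : ℕ) (P : 𝒱.Obj) (p : C.A (P.prod P)) :
    Prop :=
  ∀ z ∈ N P c, C.act p z = z → z = 0

include hC hH hN

lemma act_tens_eq {p : C.A (P.prod P)} {r : C.A (T.prod T)} (hp : tp C p = p)
    (z : C.A (P.prod T)) : C.act (tens C p r) z = C.comp (C.comp p z) r := by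
  rw [act_tens C (ch_comm C), hp]

lemma van_curve {n : ℕ} {p : C.A (P.prod P)} (hp : Prim H n P p) {o : C.A T} (hT : T.dim = 1)
    (ho : C.Deg 1 o) (hd : HasDegree C o 1) (hF : FibreProperty C) {c : ℕ} (hc : 1 ≤ c)
    (hcn : 2 * c ≤ n + 1) (h1 : Van N c P p) (h2 : Van N (c - 1) P p) :
    Van N c (P.prod T) (tens C p (oddProj C o)) := by
  intro z hz hpz
  obtain ⟨hz1, hz2⟩ := hN.deg _ _ z hz
  have hr : Prim H 1 T (oddProj C o) := prim_curve hT ho hd
  set r := oddProj C o with hrdef
  have h3 : C.comp (C.comp p z) r = z := by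
    rw [← act_tens_eq hN hp.self_dual]
    exact hpz
  have h4 : tp C z = C.comp r (C.comp (tp C z) p) := by
    conv_lhs => rw [← h3]
    rw [tp_comp C (ch_comm C), tp_comp C (ch_comm C), hr.self_dual, hp.self_dual]
  have key : ∀ t : C.A T, C.Deg 1 t → C.act (tp C z) t = 0 := by
    intro t ht
    have h5 : C.act (tp C z) t = C.act p (C.act (tp C z) (C.act r t)) := by
      conv_lhs => rw [h4, C.act_comp, C.act_comp]
    apply h1
    · rw [h5]
      apply mem_act0 hN hp.deg
      refine hN.kills T P 1 c (tp C z) ?_ ?_ (C.act r t) ?_ ?_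
      · rw [hT]
        exact gr_congr (C := C) (by push_cast; ring) (tp_mem C hz1)
      · intro a _
        rw [cl_tp, hz2, tp_zero, TheoryData.act_zero]
      · have := act_mem0 C hr.deg ht
        exact_mod_cast this
      · rw [cl_act H]
        refine hr.act_ne 2 _ (by norm_num) ?_
        have := H.cl_mem ht
        exact_mod_cast this
    · rw [h5, ← C.act_comp, hp.idem]
  have h6 := hF P T c z hT hz1 (fun t ht => by
    have h7 := key t ht
    rw [act_tp] at h7
    exact h7)
  have h8 : ∀ y ∈ Submodule.span ℚ {y | ∃ (x : C.A P) (t : C.A T), C.Deg ((c : ℤ) - 1) x ∧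
      C.Deg 1 t ∧ y = C.ext x t}, C.act (tens C p r) y = 0 := by
    intro y hy
    induction hy using Submodule.span_induction with
    | mem y hy =>
      obtain ⟨x, t, hx, ht, rfl⟩ := hy
      rw [act_tens_ext C p r (fun f c => ch_comm C _ _)]
      have h9 : C.act p x = 0 := by
        have hx' : C.act p x ∈ C.gr P ((c - 1 : ℕ) : ℤ) := by
          rw [Nat.cast_sub hc, Nat.cast_one]
          exact act_mem0 C hp.deg hx
        have h10 : C.act p (C.act p x) = C.act p x := by rw [← C.act_comp, hp.idem]
        exact h2 _ (hp.mem_auto hN (by omega) (by omega) hx' h10) h10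
      rw [h9, TheoryData.ext_zero_left]
    | zero => rw [TheoryData.act_map_zero]
    | add x y _ _ hx hy => rw [act_map_add, hx, hy, add_zero]
    | smul c x _ hx => rw [act_map_smul, hx, smul_zero]
  rw [← hpz]
  exact h8 z h6

/-- A class on `P × T` is the sum of its three components. -/
lemma three_parts {o : C.A T} (w : C.A (P.prod T)) :
    w = C.ext (C.act (tp C w) o) 1 + C.comp w (oddProj C o) + C.ext (C.act (tp C w) 1) o := by
  have h1 : C.comp w (dg C T) = w := comp_dg C w
  have h2 : dg C T = C.ext o 1 + oddProj C o + C.ext 1 o := by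
    rw [oddProj]
    abel
  conv_lhs => rw [← h1, h2, comp_add, comp_add, comp_ext, comp_ext]

lemma act_one_mem {w : C.A (P.prod T)} {c : ℤ} (hw : C.Deg c w) :
    C.Deg (c - T.dim) (C.act (tp C w) (1 : C.A T)) := by
  have h1 := act_mem' C (e := c - T.dim) (Γ := tp C w) (by
    exact gr_congr (C := C) (by ring) (tp_mem C hw)) (C.one_mem T)
  exact gr_congr (C := C) (by ring) h1

lemma van_surface {n : ℕ} {p : C.A (P.prod P)} (hp : Prim H n P p) {q : C.A (S.prod S)}
    (hq : IsTranscendental H S q) {c : ℕ} (hc : 1 ≤ c) (hcn : 2 * c ≤ n + 2)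
    (h1 : ∀ (T : 𝒱.Obj) (o : C.A T), T.dim = 1 → C.Deg 1 o → HasDegree C o 1 →
      Van N c (P.prod T) (tens C p (oddProj C o)))
    (h2 : Van N (c - 1) P p)
    (h3 : ∀ (T : 𝒱.Obj) (o : C.A T), T.dim = 1 → C.Deg 1 o → HasDegree C o 1 →
      Van N (c - 1) (P.prod T) (tens C p (oddProj C o)))
    (h4 : 2 ≤ c → Van N (c - 2) P p) :
    Van N c (P.prod S) (tens C p q) := by
  intro z hz hpz
  obtain ⟨hz1, hz2⟩ := hN.deg _ _ z hz
  have hq' := prim_surface hq
  obtain ⟨x, π, hx, hxd, hpen, hπ, hπ0, hπ4, hπq, -⟩ := hq.exists_ck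
  -- the projector kills the point
  have hqx : C.act q x = 0 := by
    have e1 : C.comp (π 4) (π 2) = 0 := hπ.orth 4 2 (by norm_num)
    rw [hπ4, ext_comp] at e1
    have e2 : C.act (π 2) x = 0 := by
      have e3 : C.act (C.ext (1 : C.A S) (C.act (π 2) x)) x = 0 := by
        rw [e1, TheoryData.act_zero]
      rw [act_ext' (q := 1) (by rwa [one_mul]), one_smul] at e3
      exact e3
    rw [← hπq, C.act_comp, e2, TheoryData.act_map_zero]
  have h5 : C.comp (C.comp p z) q = z := by
    rw [← act_tens_eq hN hp.self_dual]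
    exact hpz
  have h6 : tp C z = C.comp q (C.comp (tp C z) p) := by
    conv_lhs => rw [← h5]
    rw [tp_comp C (ch_comm C), tp_comp C (ch_comm C), hq'.self_dual, hp.self_dual]
  have h7 : C.comp p z = z := by
    conv_lhs => rw [← h5]
    rw [← comp_assoc, ← comp_assoc, hp.idem, h5]
  -- the restrictions to the curves of the pencil vanish
  have key : ∀ (T : 𝒱.Obj) (i : T ⟶ S) (o : C.A T), T.dim = 1 → C.Deg 1 o → HasDegree C o 1 →
      C.down i o = x → C.up (prodMap (𝟙 P) i) z = 0 := by
    intro T i o hT ho hd hi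
    have hr : Prim H 1 T (oddProj C o) := prim_curve hT ho hd
    change C.pull (prodMap (𝟙 P) i) z = 0
    set w := C.pull (prodMap (𝟙 P) i) z with hw
    have hwN : w ∈ N (P.prod T) c := mem_pull hN _ hz
    have hwe : w = C.comp z (tp C (C.graph i)) := pull_eq_comp i z
    have hpw : C.comp p w = w := by rw [hwe, ← comp_assoc, h7]
    have htw : tp C w = C.comp (C.graph i) (tp C z) := by
      rw [hwe, tp_comp C (ch_comm C), tp_tp]
    have ha : C.act (tp C w) o = 0 := by
      have hi' : C.push i o = x := hi
      rw [htw, C.act_comp, C.act_graph, hi', h6, C.act_comp, hqx, TheoryData.act_map_zero]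
    have hb : C.comp w (oddProj C o) = 0 := by
      have e1 : C.act (tens C p (oddProj C o)) w = C.comp w (oddProj C o) := by
        rw [act_tens_eq hN hp.self_dual, hpw]
      apply h1 T o hT ho hd
      · rw [← e1]
        exact mem_act0 hN (hp.tens hr).deg hwN
      · rw [← e1, ← C.act_comp, (hp.tens hr).idem]
    have hc' : C.act (tp C w) (1 : C.A T) = 0 := by
      apply h2
      · have h := hN.stable (P.prod T) P c (c - 1) (C.graph (fst P T)) (by
          have e1 := C.push_mem (Obj.lift (𝟙 (P.prod T)) (fst P T)) (C.one_mem (P.prod T))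
          refine gr_congr (C := C) ?_ e1
          rw [dim_prod, dim_prod, hT, Nat.cast_sub hc]
          push_cast
          ring) w hwN
        rw [C.act_graph] at h
        rw [act_tp, map_one, mul_one]
        exact h
      · have e1 : tp C w = C.comp (tp C w) p := by
          conv_lhs => rw [← hpw]
          rw [tp_comp C (ch_comm C), hp.self_dual]
        conv_lhs => rw [← C.act_comp, ← e1]
    rw [three_parts hN (o := o) w, ha, hb, hc', TheoryData.ext_zero_left,
      TheoryData.ext_zero_left, add_zero, add_zero]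
  have h8 := hpen P c z hz1 key
  -- the classes supported on the curves vanish
  have h9 : ∀ y ∈ Submodule.span ℚ {y | ∃ (T : 𝒱.Obj) (i : T ⟶ S) (w : C.A (P.prod T)),
      T.dim = 1 ∧ C.Deg ((c : ℤ) - 1) w ∧ y = C.down (prodMap (𝟙 P) i) w},
      C.act (tens C p q) y = 0 := by
    intro y hy
    induction hy using Submodule.span_induction with
    | mem y hy =>
      obtain ⟨T, i, w, hT, hw, rfl⟩ := hy
      obtain ⟨o, ho, hd1, hd2⟩ := exists_deg_one C T
      have hd : HasDegree C o 1 := fun Z => ⟨by rw [one_smul]; exact hd2 Z, by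
        rw [one_smul]; exact hd1 Z⟩
      have ho' : C.Deg 1 o := by
        rw [hT] at ho
        exact_mod_cast ho
      have hr : Prim H 1 T (oddProj C o) := prim_curve hT ho' hd
      change C.act (tens C p q) (C.push (prodMap (𝟙 P) i) w) = 0
      rw [act_tens_eq hN hp.self_dual, ← comp_graph, three_parts hN (o := o) w]
      have hD : C.act q (C.push i 1) = 0 := by
        apply hq.divisor
        have e1 := C.push_mem i (C.one_mem T)
        refine gr_congr (C := C) ?_ e1
        rw [hT, hq.dim_eq]
        norm_num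
      have hb : C.comp p (C.comp w (oddProj C o)) = 0 := by
        have e1 : C.act (tens C p (oddProj C o)) w = C.comp p (C.comp w (oddProj C o)) := by
          rw [act_tens_eq hN hp.self_dual, comp_assoc]
        have e2 : C.act (tens C p (oddProj C o)) (C.act (tens C p (oddProj C o)) w) =
            C.act (tens C p (oddProj C o)) w := by
          rw [← C.act_comp, (hp.tens hr).idem]
        rw [← e1]
        refine h3 T o hT ho' hd _ ?_ e2
        have e3 : C.act (tens C p (oddProj C o)) w ∈ C.gr (P.prod T) ((c - 1 : ℕ) : ℤ) := by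
          rw [Nat.cast_sub hc, Nat.cast_one]
          exact act_mem0 C (hp.tens hr).deg hw
        exact (hp.tens hr).mem_auto hN (by push_cast; omega) (by push_cast; omega) e3 e2
      have hc' : C.act p (C.act (tp C w) (1 : C.A T)) = 0 := by
        have e1 : C.Deg ((c : ℤ) - 2) (C.act (tp C w) (1 : C.A T)) := by
          refine gr_congr (C := C) ?_ (act_one_mem hN hw)
          rw [hT]
          push_cast
          ring
        have e2 : C.act p (C.act p (C.act (tp C w) (1 : C.A T))) =
            C.act p (C.act (tp C w) (1 : C.A T)) := by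
          rw [← C.act_comp, hp.idem]
        by_cases hc2 : 2 ≤ c
        · refine h4 hc2 _ ?_ e2
          have e3 : C.act p (C.act (tp C w) (1 : C.A T)) ∈ C.gr P ((c - 2 : ℕ) : ℤ) := by
            rw [Nat.cast_sub hc2]
            exact act_mem0 C hp.deg e1
          exact hp.mem_auto hN (by omega) (by omega) e3 e2
        · have e3 : C.act (tp C w) (1 : C.A T) ∈ C.gr P ((c : ℤ) - 2) := e1
          rw [C.gr_neg P ((c : ℤ) - 2) (by omega)] at e3
          rw [(Submodule.mem_bot _).1 e3, TheoryData.act_map_zero]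
      have t1 : C.comp (C.comp p (C.comp (C.ext (C.act (tp C w) o) (1 : C.A T))
          (C.graph i))) q = 0 := by
        rw [ext_comp, C.act_graph, comp_ext, ext_comp, hD, TheoryData.ext_zero_right]
      have t2 : C.comp (C.comp p (C.comp (C.comp w (oddProj C o)) (C.graph i))) q = 0 := by
        rw [← comp_assoc C p, hb, zero_comp, zero_comp]
      have t3 : C.comp (C.comp p (C.comp (C.ext (C.act (tp C w) (1 : C.A T)) o)
          (C.graph i))) q = 0 := by
        rw [ext_comp, comp_ext, hp.self_dual, hc', TheoryData.ext_zero_left, zero_comp]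
      rw [add_comp, add_comp, comp_add, comp_add, add_comp, add_comp, t1, t2, t3, add_zero,
        add_zero]
    | zero => rw [TheoryData.act_map_zero]
    | add x y _ _ hx hy => rw [act_map_add, hx, hy, add_zero]
    | smul c x _ hx => rw [act_map_smul, hx, smul_zero]
  rw [← hpz]
  exact h9 z h8

variable {Q : ∀ S : 𝒱.Obj, C.A (S.prod S) → Prop} (hQ : ∀ S q, Q S q → IsTranscendental H S q)

include hQ

/-- **The kernels of the Abel-Jacobi maps vanish on the primitive parts of weight at least `2 c - 1`**,
if they vanish on the primitive parts of weight `2 j - 1` for all `j ≤ c`. -/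
theorem van_part (hF : FibreProperty C) {D : ℕ∞}
    (hInj : ∀ j : ℕ, 2 ≤ j → (j : ℕ∞) ≤ D → InjectiveOnPrimitive Q N j) (c : ℕ) :
    (c : ℕ∞) ≤ D → ∀ (m : ℕ) (R : 𝒱.Obj) (r : C.A (R.prod R)),
      IsPart Q m R r → 2 * c ≤ m + 1 → Van N c R r := by
  induction c using Nat.strong_induction_on with
  | _ c ihc =>
    intro hcD m
    induction m using Nat.strong_induction_on with
    | _ m ihm =>
      intro R r hR hcm
      by_cases hc0 : c = 0
      · subst hc0
        intro z hz _
        obtain ⟨h1, h2⟩ := hN.deg _ _ z hz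
        exact eq_zero_of_deg_zero (H := H) (by exact_mod_cast h1) h2
      by_cases hc1 : c = 1
      · subst hc1
        intro z hz _
        exact hN.abel R z hz
      have hle : ∀ c' : ℕ, c' ≤ c → (c' : ℕ∞) ≤ D := fun c' h =>
        le_trans (by exact_mod_cast h) hcD
      by_cases hm : m + 1 = 2 * c
      · obtain rfl : m = 2 * c - 1 := by omega
        exact hInj c (by omega) hcD R r hR
      · cases hR with
        | factor _ _ _ hr =>
          exfalso
          cases hr with
          | curve => omega
          | surface => omega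
        | prod n m' P T p r hp hr =>
          cases hr with
          | curve _ o hT ho hd =>
            exact van_curve hN (prim_part hQ hp) hT ho hd hF (by omega) (by omega)
              (ihm n (by omega) P p hp (by omega))
              (ihc (c - 1) (by omega) (hle _ (by omega)) n P p hp (by omega))
          | surface _ q hq =>
            exact van_surface hN (prim_part hQ hp) (hQ _ _ hq) (by omega) (by omega)
              (fun T o hT ho hd => ihm (n + 1) (by omega) _ _
                (IsPart.prod n 1 P T p _ hp (IsFactor.curve T o hT ho hd)) (by omega))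
              (ihc (c - 1) (by omega) (hle _ (by omega)) n P p hp (by omega))
              (fun T o hT ho hd => ihc (c - 1) (by omega) (hle _ (by omega)) (n + 1) _ _
                (IsPart.prod n 1 P T p _ hp (IsFactor.curve T o hT ho hd)) (by omega))
              (fun h => ihc (c - 2) (by omega) (hle _ (by omega)) n P p hp (by omega))

/-- The vanishing for external products of primitive parts. -/
lemma van_prod {n m c : ℕ} {p : C.A (P.prod P)} {p' : C.A (P'.prod P')}
    (hV : ∀ (m : ℕ) (R : 𝒱.Obj) (r : C.A (R.prod R)),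
      IsPart Q m R r → 2 * c ≤ m + 1 → Van N c R r)
    (hp : IsPart Q n P p) (hp' : IsPart Q m P' p')
    (hc : 2 * c ≤ n + m + 1) : Van N c (P.prod P') (tens C p p') := by
  obtain ⟨R, r, f, g, hR, h1, h2, h3⟩ := exists_part_prod hp hp'
  intro z hz hpz
  have h4 : C.act r (C.pull g z) = C.pull g z := by
    rw [act_push_iso h1 h2, ← h3, hpz]
  have h5 := hV _ R r hR hc _ (mem_pull hN g hz) h4
  have h6 : C.pull f (C.pull g z) = z := by rw [← C.pull_comp, h1, C.pull_id]
  rw [← h6, h5, map_zero]

/-- The vanishing of correspondences between primitive parts: those which lower `2 i - n`, and the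
homologically trivial ones which preserve it. -/
lemma corr_zero {n m : ℕ} {p : C.A (P.prod P)} {p' : C.A (P'.prod P')} {D : ℕ∞}
    (hV : ∀ c : ℕ, (c : ℕ∞) ≤ D → ∀ (m : ℕ) (R : 𝒱.Obj) (r : C.A (R.prod R)),
      IsPart Q m R r → 2 * c ≤ m + 1 → Van N c R r)
    (hp : IsPart Q n P p) (hp' : IsPart Q m P' p')
    (hn : (n : ℕ∞) ≤ D) (hm : (m : ℕ∞) ≤ D) {c : ℤ} {γ : C.A (P.prod P')} (hγ : C.Deg c γ)
    (hpγ : C.comp (C.comp p γ) p' = γ)
    (hc : 2 * c < n + m ∨ (2 * c = n + m ∧ H.cl γ = 0)) : γ = 0 := by
  have hP := (prim_part hQ hp).tens (prim_part hQ hp')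
  have h1 : C.act (tens C p p') γ = γ := by
    rw [act_tens_eq hN (prim_part hQ hp).self_dual, hpγ]
  have hγ' : γ ∈ C.gr (P.prod P') c := hγ
  by_cases hc0 : c < 0
  · rw [C.gr_neg _ _ hc0] at hγ'
    exact (Submodule.mem_bot _).1 hγ'
  obtain ⟨c, rfl⟩ := Int.eq_ofNat_of_zero_le (not_lt.1 hc0)
  have hcD : (c : ℕ∞) ≤ D := by
    have : c ≤ n ∨ c ≤ m := by omega
    rcases this with h | h
    · exact le_trans (by exact_mod_cast h) hn
    · exact le_trans (by exact_mod_cast h) hm
  refine van_prod hN hQ (hV c hcD) hp hp' (by omega) γ ?_ h1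
  rcases hc with hc | ⟨hc, hcl⟩
  · exact hP.mem_auto hN (by push_cast; omega) (by push_cast; omega) hγ h1
  · exact hP.mem_of_cl hN (by push_cast; omega) hγ hcl h1

end Pool.Agent.Helper13BB
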