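import Pool.Agent.Helper13BB.Parts

/-!
# Products of primitive parts, and transport along isomorphisms
-/

open CategoryTheory AlgebraicGeometry

universe u v w

namespace Pool.Agent.Helper13BB

open Pool.Agent.H914 Pool.Agent.H914.VarClass Pool.Agent.H914.VarClass.Obj Pool.Agent.W492.BB
  Pool.Agent.W550.Corr Pool.Agent.TH133 Pool.Agent.Y148.BB

set_option linter.unusedSectionVars false
set_option linter.unusedVariables false

variable {k : Type u} [Field k] {𝒱 : VarClass k}

variable {C : TheoryData.{u, v, 0} 𝒱 ℚ} [hC : IsChowProj C] {K : Type w} [Field K]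
  {H : WeilTheoryData.{u, v, w} C K} [hH : IsWeilProj H] {X Y Z W P P' S T R : 𝒱.Obj}

lemma prodMap_id (X Y : 𝒱.Obj) : prodMap (𝟙 X) (𝟙 Y) = 𝟙 (X.prod Y) := by
  apply prod_ext <;> simp

lemma prodMap_iso {f : X ⟶ Y} {g : Y ⟶ X} (h : f ≫ g = 𝟙 _) :
    prodMap f f ≫ prodMap g g = 𝟙 _ := by
  rw [prodMap_comp, h, prodMap_id]

include hC

/-- The external product of two primitive parts is, up to an isomorphism, a primitive part. -/
lemma exists_part_prod {Q : ∀ S : 𝒱.Obj, C.A (S.prod S) → Prop} {n m : ℕ} {p : C.A (P.prod P)}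
    {p' : C.A (P'.prod P')} (h : IsPart Q n P p) (h' : IsPart Q m P' p') :
    ∃ (R : 𝒱.Obj) (r : C.A (R.prod R)) (f : P.prod P' ⟶ R) (g : R ⟶ P.prod P'),
      IsPart Q (n + m) R r ∧ f ≫ g = 𝟙 _ ∧ g ≫ f = 𝟙 _ ∧
      tens C p p' = C.pull (prodMap f f) r := by
  induction h' with
  | factor m T r hr =>
    refine ⟨P.prod T, tens C p r, 𝟙 _, 𝟙 _, IsPart.prod n m P T p r h hr, Category.comp_id _,
      Category.comp_id _, ?_⟩
    rw [prodMap_id, C.pull_id]
  | prod n' m' P' T p' r hp hr ih =>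
    obtain ⟨R, ρ, f, g, hR, h1, h2, h3⟩ := ih
    refine ⟨R.prod T, tens C ρ r, aJ P P' T ≫ prodMap f (𝟙 T), prodMap g (𝟙 T) ≫ aI P P' T,
      ?_, ?_, ?_, ?_⟩
    · rw [← add_assoc]
      exact IsPart.prod (n + n') m' R T ρ r hR hr
    · rw [Category.assoc, ← Category.assoc (prodMap f (𝟙 T)), prodMap_comp, h1,
        Category.comp_id, prodMap_id, Category.id_comp, aJ_aI]
    · rw [Category.assoc, ← Category.assoc (aI P P' T), aI_aJ, Category.id_comp, prodMap_comp, h2,
        Category.comp_id, prodMap_id]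
    · have e1 : (aJ P P' T ≫ prodMap f (𝟙 T)) ≫ fst R T = (aJ P P' T ≫ fst (P.prod P') T) ≫ f := by
        rw [Category.assoc, prodMap_fst, ← Category.assoc]
      have e2 : (aJ P P' T ≫ prodMap f (𝟙 T)) ≫ snd R T = aJ P P' T ≫ snd (P.prod P') T := by
        rw [Category.assoc, prodMap_snd, Category.comp_id]
      have e3 : aJ P P' T ≫ fst (P.prod P') T ≫ fst P P' = fst P (P'.prod T) := by
        simp [aJ]
      have e4 : aJ P P' T ≫ fst (P.prod P') T ≫ snd P P' = snd P (P'.prod T) ≫ fst P' T := by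
        simp [aJ]
      have e5 : aJ P P' T ≫ snd (P.prod P') T = snd P (P'.prod T) ≫ snd P' T := by
        simp [aJ]
      have e6 : C.pull (prodMap ((aJ P P' T ≫ fst (P.prod P') T) ≫ f)
          ((aJ P P' T ≫ fst (P.prod P') T) ≫ f)) ρ =
          C.pull (prodMap (aJ P P' T ≫ fst (P.prod P') T) (aJ P P' T ≫ fst (P.prod P') T))
            (tens C p p') := by
        rw [h3, ← C.pull_comp, prodMap_comp]
      have e7 : C.pull (prodMap (aJ P P' T ≫ prodMap f (𝟙 T)) (aJ P P' T ≫ prodMap f (𝟙 T)))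
          (tens C ρ r) = C.pull (prodMap ((aJ P P' T ≫ fst (P.prod P') T) ≫ f)
          ((aJ P P' T ≫ fst (P.prod P') T) ≫ f)) ρ *
          C.pull (prodMap (aJ P P' T ≫ snd (P.prod P') T) (aJ P P' T ≫ snd (P.prod P') T)) r := by
        rw [tens, map_mul, ← C.pull_comp, ← C.pull_comp, prodMap_comp, prodMap_comp, e1, e2]
      rw [e7, e6, tens, tens, tens, map_mul, map_mul, ← C.pull_comp, ← C.pull_comp, ← C.pull_comp,
        ← C.pull_comp, prodMap_comp, prodMap_comp, prodMap_comp, prodMap_comp, Category.assoc,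
        Category.assoc, e3, e4, e5, mul_assoc]

/-- Transport of the action of a correspondence along an isomorphism. -/
lemma act_push_iso {f : X ⟶ R} {g : R ⟶ X} (h1 : f ≫ g = 𝟙 _) (h2 : g ≫ f = 𝟙 _)
    (r : C.A (R.prod R)) (z : C.A X) :
    C.act r (C.pull g z) = C.pull g (C.act (C.pull (prodMap f f) r) z) := by
  have e1 : prodMap f f ≫ fst R R = fst X X ≫ f := prodMap_fst _ _
  have e2 : prodMap g g ≫ prodMap f f = 𝟙 _ := prodMap_iso h2
  have e3 : prodMap f f ≫ prodMap g g = 𝟙 _ := prodMap_iso h1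
  have e4 : prodMap f f ≫ snd R R = snd X X ≫ f := prodMap_snd _ _
  rw [TheoryData.act_apply, TheoryData.act_apply, pull_iso C g f h2 h1 (C.push _ _),
    ← C.push_comp, ← e4, push_model C (prodMap f f) (prodMap g g) e3 e2, map_mul,
    ← C.pull_comp (prodMap f f), ← C.pull_comp, e1, Category.assoc, h1, Category.comp_id]

end Pool.Agent.Helper13BB
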