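import Pool.Agent.Y148.BB.Corr

/-!
# The primitive parts: projectors on products of curves and surfaces
-/

open CategoryTheory AlgebraicGeometry

universe u v w

namespace Pool.Agent.Helper13BB

open Pool.Agent.H914 Pool.Agent.H914.VarClass Pool.Agent.H914.VarClass.Obj Pool.Agent.W492.BB
  Pool.Agent.W550.Corr Pool.Agent.TH133 Pool.Agent.Y148.BB

set_option linter.unusedSectionVars false
set_option linter.unusedVariables false

variable {k : Type u} [Field k] {𝒱 : VarClass k}

variable {C : TheoryData.{u, v, 0} 𝒱 ℚ} [hC : IsChowProj C] {K : Type w} [Field K]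
  {H : WeilTheoryData.{u, v, w} C K} [hH : IsWeilProj H] {X Y Z W P S T : 𝒱.Obj}

/-- The pair `(P, p)` is a self-dual projector of degree zero, `P` has dimension `n`, and `p` acts as
zero on the cohomology in degrees different from `n`. -/
structure Prim (H : WeilTheoryData.{u, v, w} C K) (n : ℕ) (P : 𝒱.Obj) (p : C.A (P.prod P)) :
    Prop where
  dim_eq : P.dim = n
  deg : p ∈ C.gr (P.prod P) P.dim
  idem : C.comp p p = p
  self_dual : tp C p = p
  act_ne : ∀ (m : ℤ) (a : H.A P), m ≠ n → a ∈ H.gr P m → H.act (H.cl p) a = 0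

include hC hH

lemma Prim.tens {n m : ℕ} {p : C.A (P.prod P)} {r : C.A (T.prod T)} (hp : Prim H n P p)
    (hr : Prim H m T r) : Prim H (n + m) (P.prod T) (tens C p r) where
  dim_eq := by rw [dim_prod, hp.dim_eq, hr.dim_eq]
  deg := by
    have := tens_mem C hp.deg hr.deg
    rw [dim_prod]
    push_cast
    exact this
  idem := by rw [tens_comp', hp.idem, hr.idem]
  self_dual := by rw [tp_tens, hp.self_dual, hr.self_dual]
  act_ne := by
    intro l c hl hc
    have h1 := H.kunneth P T l hc
    clear hc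
    induction h1 using Submodule.span_induction with
    | mem x hx =>
      obtain ⟨e, a, b, ha, hb, rfl⟩ := hx
      have e0 : H.pull (fst P T) a * H.pull (snd P T) b = H.ext a b := rfl
      rw [e0, actH_tens_ext]
      by_cases he : e = n
      · rw [hr.act_ne (l - e) b (by push_cast at hl; omega) hb, TheoryData.ext_zero_right]
      · rw [hp.act_ne e a he ha, TheoryData.ext_zero_left]
    | zero => rw [TheoryData.act_map_zero]
    | add x y _ _ hx hy => rw [act_map_add, hx, hy, add_zero]
    | smul c x _ hx => rw [act_map_smul, hx, smul_zero]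

lemma prim_curve {o : C.A T} (hT : T.dim = 1) (ho : C.Deg 1 o) (hd : HasDegree C o 1) :
    Prim H 1 T (oddProj C o) where
  dim_eq := hT
  deg := odd_mem hT ho
  idem := odd_odd hT ho hd
  self_dual := tp_odd o
  act_ne m a hm ha := by
    have h1 := curveCK_act H hT ho hd 1 m ha
    rw [if_neg hm] at h1
    exact h1

lemma prim_surface {q : C.A (S.prod S)} (h : IsTranscendental H S q) : Prim H 2 S q where
  dim_eq := h.dim_eq
  deg := by
    rw [h.dim_eq]
    exact h.deg
  idem := h.idem
  self_dual := h.self_dual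
  act_ne m a hm ha := by
    obtain ⟨x, π, _, _, _, hπ, _, _, h2, _⟩ := h.exists_ck
    rw [← h2, actH_comp, hπ.act_ne 2 m a (by exact_mod_cast hm) ha, TheoryData.act_map_zero]

variable {Q : ∀ S : 𝒱.Obj, C.A (S.prod S) → Prop}

lemma prim_factor (hQ : ∀ S q, Q S q → IsTranscendental H S q) {n : ℕ} {r : C.A (T.prod T)}
    (h : IsFactor Q n T r) : Prim H n T r := by
  cases h with
  | curve _ o hT ho hd => exact prim_curve hT ho hd
  | surface _ _ h => exact prim_surface (hQ _ _ h)

lemma prim_part (hQ : ∀ S q, Q S q → IsTranscendental H S q) {n : ℕ} {p : C.A (P.prod P)}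
    (h : IsPart Q n P p) : Prim H n P p := by
  induction h with
  | factor n T r hr => exact prim_factor hQ hr
  | prod n m P T p r hp hr ih => exact ih.tens (prim_factor hQ hr)

omit hC hH in
lemma one_le_factor {n : ℕ} {r : C.A (T.prod T)} (h : IsFactor Q n T r) : 1 ≤ n := by
  cases h with
  | curve _ o hT ho hd => exact le_rfl
  | surface _ _ h => exact one_le_two

omit hC hH in
lemma one_le_part {n : ℕ} {p : C.A (P.prod P)} (h : IsPart Q n P p) : 1 ≤ n := by
  induction h with
  | factor n T r hr => exact one_le_factor hr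
  | prod n m P T p r hp hr ih => omega

/-- Classes of degree zero which are homologically trivial vanish. -/
lemma eq_zero_of_deg_zero {z : C.A X} (hz : C.Deg 0 z) (h : H.cl z = 0) : z = 0 := by
  obtain ⟨q, rfl⟩ := hC.gr_zero X z hz
  by_contra hne
  have hq : q ≠ 0 := by
    rintro rfl
    exact hne (zero_smul _ _)
  have h1 : (1 : C.A X) = (q⁻¹ • (1 : C.A X)) * (q • (1 : C.A X)) := by
    rw [smul_mul_smul_comm, inv_mul_cancel₀ hq, one_smul, one_mul]
  have h2 : (1 : H.A X) = 0 := by
    rw [← map_one H.cl, h1, map_mul, h, mul_zero]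
  exact hH.one_ne_zero X h2

lemma cl_smul_zero {z : C.A X} (q : ℚ) (h : H.cl z = 0) : H.cl (q • z) = 0 := by
  have h1 : q • z = (q • (1 : C.A X)) * z := by rw [smul_mul_assoc, one_mul]
  rw [h1, map_mul, h, mul_zero]

/-- The homologically trivial classes form a subspace. -/
noncomputable def homKer (H : WeilTheoryData.{u, v, w} C K) [IsWeilProj H] (X : 𝒱.Obj) :
    Submodule ℚ (C.A X) where
  carrier := {z | H.cl z = 0}
  zero_mem' := map_zero _
  add_mem' {a b} ha hb := by
    change H.cl (a + b) = 0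
    rw [map_add, ha, hb, add_zero]
  smul_mem' q a ha := cl_smul_zero q ha

lemma cl_act_zero {Γ : C.A (X.prod Y)} {z : C.A X} (h : H.cl z = 0) :
    H.cl (C.act Γ z) = 0 := by
  rw [cl_act H, h, TheoryData.act_map_zero]

lemma cl_act_zero' {Γ : C.A (X.prod Y)} {z : C.A X} (h : H.cl Γ = 0) :
    H.cl (C.act Γ z) = 0 := by
  rw [cl_act H, h, TheoryData.act_zero]

lemma Prim.cl_zero {n : ℕ} {p : C.A (P.prod P)} (hp : Prim H n P p) {j : ℤ} (hj : 2 * j ≠ n)
    {z : C.A P} (hz : C.Deg j z) (hpz : C.act p z = z) : H.cl z = 0 := by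
  rw [← hpz, cl_act H]
  exact hp.act_ne _ _ hj (H.cl_mem hz)

lemma Prim.kills {n : ℕ} {p : C.A (P.prod P)} (hp : Prim H n P p) {m : ℤ} (hm : m ≠ n) :
    Kills H p m := fun a ha => hp.act_ne m a hm ha

variable {N : ∀ X : 𝒱.Obj, ℕ → Submodule ℚ (C.A X)} (hN : IsAbelJacobiKernel H N)

include hN

/-- Homologically trivial classes of codimension `j` on a primitive part of weight different from
`2 j - 1` are in the kernel of the Abel-Jacobi map. -/
lemma Prim.mem_of_cl {n : ℕ} {p : C.A (P.prod P)} (hp : Prim H n P p) {j : ℕ}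
    (hj : 2 * (j : ℤ) - 1 ≠ n) {z : C.A P} (hz : C.Deg j z) (hcl : H.cl z = 0)
    (hpz : C.act p z = z) : z ∈ N P j := by
  rw [← hpz]
  refine hN.kills P P j j p ?_ (hp.kills hj) z hz hcl
  rw [add_sub_cancel_right]
  exact hp.deg

lemma Prim.mem_auto {n : ℕ} {p : C.A (P.prod P)} (hp : Prim H n P p) {j : ℕ}
    (hj : 2 * (j : ℤ) - 1 ≠ n) (hj' : 2 * (j : ℤ) ≠ n) {z : C.A P} (hz : C.Deg j z)
    (hpz : C.act p z = z) : z ∈ N P j :=
  hp.mem_of_cl hN hj hz (hp.cl_zero hj' hz hpz) hpz

lemma mem_act0 {j : ℕ} {Γ : C.A (X.prod Y)} (hΓ : Γ ∈ C.gr (X.prod Y) X.dim) {z : C.A X}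
    (hz : z ∈ N X j) : C.act Γ z ∈ N Y j :=
  hN.stable X Y j j Γ (by rw [add_sub_cancel_right]; exact hΓ) z hz

lemma mem_pull {j : ℕ} (f : X ⟶ Y) {z : C.A Y} (hz : z ∈ N Y j) : C.pull f z ∈ N X j := by
  rw [← C.act_cograph f]
  exact mem_act0 hN (cograph_mem f) hz

end Pool.Agent.Helper13BB
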