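import Pool.Agent.W492.BB.Defs

/-!
# The Bloch-Beilinson filtration on motives generated by curves and surfaces: the definitions used
in the statement
-/

open CategoryTheory AlgebraicGeometry

universe u v w

namespace Pool.Agent.Helper13BB.Stm

open Pool.Agent.H914 Pool.Agent.H914.VarClass Pool.Agent.H914.VarClass.Obj Pool.Agent.W492.BB

variable {k : Type u} [Field k] {𝒱 : VarClass k}

section chow

variable (C : TheoryData.{u, v, 0} 𝒱 ℚ) {X Y Z W : 𝒱.Obj}

/-- The external product `a × b`. -/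
noncomputable def cross (a : C.A X) (b : C.A Y) : C.A (X.prod Y) :=
  C.mul (C.up (fst X Y) a) (C.up (snd X Y) b)

/-- The composition of the correspondences `Γ` (from `X` to `Y`) and `Δ` (from `Y` to `Z`): first
`Γ`, then `Δ`. -/
noncomputable def cmp (Γ : C.A (X.prod Y)) (Δ : C.A (Y.prod Z)) : C.A (X.prod Z) :=
  C.down (prodMap (fst X Y) (𝟙 Z)) (C.mul (C.up (prodMap (snd X Y) (𝟙 Z)) Δ)
    (C.up (fst (X.prod Y) Z) Γ))

/-- The class of the diagonal of `X`. -/
noncomputable def diagonal (X : 𝒱.Obj) : C.A (X.prod X) := C.down (Obj.lift (𝟙 X) (𝟙 X)) 1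

/-- The external product of the correspondences `Γ` from `X` to `Y` and `Δ` from `Z` to `W`. -/
noncomputable def box (Γ : C.A (X.prod Y)) (Δ : C.A (Z.prod W)) :
    C.A ((X.prod Z).prod (Y.prod W)) :=
  C.mul (C.up (prodMap (fst X Z) (fst Y W)) Γ) (C.up (prodMap (snd X Z) (snd Y W)) Δ)

/-- The transpose of a correspondence. -/
noncomputable def transpose (Γ : C.A (X.prod Y)) : C.A (Y.prod X) :=
  C.up (Obj.lift (snd Y X) (fst Y X)) Γ

/-- The zero-cycle `x` on `X` has degree one: for all `Y` the push-forward of `x × Y` to `Y` is the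
fundamental class of `Y`. -/
def DegOne (x : C.A X) : Prop :=
  ∀ Y : 𝒱.Obj, C.down (snd X Y) (C.up (fst X Y) x) = 1 ∧
    C.down (fst Y X) (C.up (snd Y X) x) = 1

/-- The class `z` is a linear combination of classes with the property `s`. -/
def InSpan (s : C.A X → Prop) (z : C.A X) : Prop := z ∈ Submodule.span ℚ {c | s c}

/-- The correspondence `Δ_T - o × T - T × o`: for a curve `T` and a zero-cycle `o` of degree one it
is the projector on the motive `h^1(T)`. -/
noncomputable def odd {T : 𝒱.Obj} (o : C.A T) : C.A (T.prod T) :=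
  diagonal C T - cross C o 1 - cross C 1 o

/-- The formal properties of the Chow groups with rational coefficients of smooth projective
varieties: those of `IsChow` (a commutative graded ring, pull-backs and push-forwards, the projection
formula, base change along projections, zero-cycles of degree one), and

* push-forwards along isomorphisms preserve fundamental classes;
* `CH^0(X)` is generated by the fundamental class, and `CH^i(X) = 0` for `i > dim X`;
* zero-cycles have a degree;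
* the self-intersection number `h ^ dim X` of some divisor class `h` is not zero. -/
structure IsChowTheory : Prop where
  isChow : IsChow C
  push_one : ∀ {X Y : 𝒱.Obj} (f : X ⟶ Y) (g : Y ⟶ X), f ≫ g = 𝟙 X → g ≫ f = 𝟙 Y → C.down f 1 = 1
  gr_zero : ∀ (X : 𝒱.Obj) (x : C.A X), C.Deg 0 x → ∃ q : ℚ, x = q • (1 : C.A X)
  gr_top : ∀ (X : 𝒱.Obj) (i : ℤ) (x : C.A X), C.Deg i x → (X.dim : ℤ) < i → x = 0
  degree : ∀ (X : 𝒱.Obj) (x : C.A X), C.Deg X.dim x → ∃ q : ℚ, ∀ Y : 𝒱.Obj,
    C.down (snd X Y) (C.up (fst X Y) x) = q • (1 : C.A Y) ∧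
      C.down (fst Y X) (C.up (snd Y X) x) = q • (1 : C.A Y)
  polarized : ∀ X : 𝒱.Obj, ∃ h : C.A X, C.Deg 1 h ∧ ∃ q : ℚ, q ≠ 0 ∧
    C.down (snd X X) (C.up (fst X X) (h ^ X.dim)) = q • (1 : C.A X)

/-- A family of subspaces of the Chow groups: `N X j` is a subspace of `CH(X)`. -/
def Fam : Type (max (u + 1) v) := ∀ X : 𝒱.Obj, ℕ → Submodule ℚ (C.A X)

variable {C}

/-- The class `z` lies in the subspace `N X j`. -/
def Fam.Has (N : Fam C) (j : ℕ) (z : C.A X) : Prop := z ∈ N X j

variable (C)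

/-- The theorem of Bloch and Srinivas for curves: a class on `X × T`, `T` a curve, whose restrictions
to all the fibres `X × t` vanish, is a sum of classes `x × t`. -/
def FibreProperty : Prop :=
  ∀ (X T : 𝒱.Obj) (j : ℤ) (z : C.A (X.prod T)), T.dim = 1 → C.Deg j z →
    (∀ t : C.A T, C.Deg 1 t → C.down (fst X T) (C.mul z (C.up (snd X T) t)) = 0) →
    InSpan C (fun c => ∃ (x : C.A X) (t : C.A T), C.Deg (j - 1) x ∧ C.Deg 1 t ∧
      c = cross C x t) z

/-- The analogous property for a pencil of curves on the surface `S` through the point `x`: a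
class on `P × S` whose restrictions to `P × T` vanish, for all the curves `T → S` which carry a
zero-cycle `o` of degree one with image `x` (such as the smooth members of the pencil), is a sum of
push-forwards of classes on products `P × T` with curves `T → S` (the normalisations of members of
the pencil). -/
def PencilProperty {S : 𝒱.Obj} (x : C.A S) : Prop :=
  ∀ (P : 𝒱.Obj) (j : ℤ) (z : C.A (P.prod S)), C.Deg j z →
    (∀ (T : 𝒱.Obj) (i : T ⟶ S) (o : C.A T), T.dim = 1 → C.Deg 1 o → DegOne C o →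
      C.down i o = x → C.up (prodMap (𝟙 P) i) z = 0) →
    InSpan C (fun c => ∃ (T : 𝒱.Obj) (i : T ⟶ S) (w : C.A (P.prod T)), T.dim = 1 ∧
      C.Deg (j - 1) w ∧ c = C.down (prodMap (𝟙 P) i) w) z

/-- The correspondence `c` factors through the motive `h^1` of a curve, `c = g ∘ h^1 ∘ f` with
correspondences `f ∈ CH^a(S × T)`, `g ∈ CH^b(T × S)`. -/
def ThroughCurve {S : 𝒱.Obj} (a b : ℤ) (c : C.A (S.prod S)) : Prop :=
  ∃ (T : 𝒱.Obj) (o : C.A T) (f : C.A (S.prod T)) (g : C.A (T.prod S)), T.dim = 1 ∧ C.Deg 1 o ∧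
    DegOne C o ∧ C.Deg a f ∧ C.Deg b g ∧ c = cmp C f (cmp C (odd C o) g)

/-- The Chow motive of `X` is a direct summand of the Chow motive of a variety in the class `S`. -/
def SummandOf (S : 𝒱.Obj → Prop) (X : 𝒱.Obj) : Prop :=
  ∃ P : 𝒱.Obj, S P ∧ ∃ (f : C.A (X.prod P)) (g : C.A (P.prod X)),
    C.Deg X.dim f ∧ C.Deg P.dim g ∧ cmp C f g = diagonal C X

variable {C}

/-- `IsFactor Q m T r`: either `T` is a curve, `m = 1` and `r` is the projector
`Δ - o × T - T × o` on `h^1(T)`, with `o` a zero-cycle of degree one; or `m = 2` and `Q T r`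
(`T` is a surface and `r` is the projector on `t_2(T)`). -/
inductive IsFactor (Q : ∀ S : 𝒱.Obj, C.A (S.prod S) → Prop) :
    ℕ → (T : 𝒱.Obj) → C.A (T.prod T) → Prop
  | curve (T : 𝒱.Obj) (o : C.A T) (hT : T.dim = 1) (ho : C.Deg 1 o) (hd : DegOne C o) :
      IsFactor Q 1 T (odd C o)
  | surface (S : 𝒱.Obj) (q : C.A (S.prod S)) (h : Q S q) : IsFactor Q 2 S q

/-- `IsPart Q n P p`: the variety `P` is a product of curves `T` and of surfaces `S`, and `p` is
the external product of the projectors on the motives `h^1(T)` and `t_2(S)` of the factors; the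
number `n` is the number of curves plus twice the number of surfaces. So `(P, p)` is the motive
`h^1(T_1) ⊗ ⋯ ⊗ h^1(T_s) ⊗ t_2(S_1) ⊗ ⋯ ⊗ t_2(S_r)`, `n = s + 2r`, the factors in any order. -/
inductive IsPart (Q : ∀ S : 𝒱.Obj, C.A (S.prod S) → Prop) :
    ℕ → (P : 𝒱.Obj) → C.A (P.prod P) → Prop
  | factor (n : ℕ) (T : 𝒱.Obj) (r : C.A (T.prod T)) (hr : IsFactor Q n T r) : IsPart Q n T r
  | prod (n m : ℕ) (P T : 𝒱.Obj) (p : C.A (P.prod P)) (r : C.A (T.prod T)) (hp : IsPart Q n P p)
      (hr : IsFactor Q m T r) : IsPart Q (n + m) (P.prod T) (box C p r)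

/-- The variety `P` is a product of curves and of surfaces `S` such that `Q S q` for some `q`. -/
inductive IsProduct (Q : ∀ S : 𝒱.Obj, C.A (S.prod S) → Prop) : 𝒱.Obj → Prop
  | factor (T : 𝒱.Obj) (hT : T.dim = 1 ∨ ∃ q, Q T q) : IsProduct Q T
  | prod (P T : 𝒱.Obj) (hP : IsProduct Q P) (hT : T.dim = 1 ∨ ∃ q, Q T q) :
      IsProduct Q (P.prod T)

/-- The injectivity of the Abel-Jacobi maps on the cycles of codimension `j` of the motives
`(P, p) = h^1(T_1) ⊗ ⋯ ⊗ h^1(T_s) ⊗ t_2(S_1) ⊗ ⋯ ⊗ t_2(S_r)` with `s + 2r = 2j - 1`: a class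
`z ∈ CH^j(P)` in the kernel of the Abel-Jacobi map such that `p_* z = z` is zero. -/
def InjectiveOnPrimitive (Q : ∀ S : 𝒱.Obj, C.A (S.prod S) → Prop) (N : Fam C) (j : ℕ) : Prop :=
  ∀ (P : 𝒱.Obj) (p : C.A (P.prod P)), IsPart Q (2 * j - 1) P p →
    ∀ z : C.A P, N.Has j z → C.act p z = z → z = 0

end chow

section weil

variable {C : TheoryData.{u, v, 0} 𝒱 ℚ} {K : Type w} [Field K] (H : WeilTheoryData.{u, v, w} C K)
  {X Y : 𝒱.Obj}

/-- The class `z` is homologically trivial. -/
def HomTriv (z : C.A X) : Prop := H.cl z = 0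

/-- A Weil cohomology theory in the sense of `IsWeil` with the usual normalisations: `H^0(X)` is
spanned by `1 ≠ 0`, and the orientation vanishes outside the top degree `2 dim X`. -/
structure IsWeilTheory : Prop where
  isWeil : IsWeil H
  gr_zero : ∀ (X : 𝒱.Obj) (a : H.A X), H.Deg 0 a → ∃ c : K, a = c • (1 : H.A X)
  one_ne_zero : ∀ X : 𝒱.Obj, (1 : H.A X) ≠ 0
  tr_eq_zero : ∀ (X : 𝒱.Obj) (i : ℤ) (a : H.A X), H.Deg i a → i ≠ 2 * X.dim → H.tr X a = 0

/-- The formal properties of the kernels `N X j ⊆ CH^j(X)` of the Abel-Jacobi maps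
`CH^j(X)_hom → J^(2j-1)(X) ⊗ ℚ`:
* they consist of homologically trivial classes and are stable under all correspondences;
* a correspondence acting as zero on `H^(2j-1)(X)` maps `CH^j(X)_hom` to the kernel of the
  Abel-Jacobi map of the target;
* the theorem of Abel: the kernel is zero for divisors. -/
structure IsAbelJacobiKernel (N : Fam C) : Prop where
  deg : ∀ (X : 𝒱.Obj) (j : ℕ) (z : C.A X), N.Has j z → C.Deg j z ∧ HomTriv H z
  stable : ∀ (X Y : 𝒱.Obj) (j i : ℕ) (Γ : C.A (X.prod Y)), C.Deg (X.dim + i - j) Γ →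
    ∀ z, N.Has j z → N.Has i (C.act Γ z)
  kills : ∀ (X Y : 𝒱.Obj) (j i : ℕ) (Γ : C.A (X.prod Y)), C.Deg (X.dim + i - j) Γ →
    Kills H Γ (2 * j - 1) → ∀ z, C.Deg j z → HomTriv H z → N.Has i (C.act Γ z)
  abel : ∀ (X : 𝒱.Obj) (z : C.A X), N.Has 1 z → z = 0

/-- `(F ν).Has j z`, for `z ∈ CH(X)`, says that `z` lies in the step `F^ν CH^j(X)` of a
Bloch-Beilinson filtration on the Chow groups of the varieties `X` in the class `S` (conditions 1, 2,
3, 4 of the problem, `N` being the kernels of the Abel-Jacobi maps). -/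
structure IsBlochBeilinsonOn (N : Fam C) (S : 𝒱.Obj → Prop) (F : ℕ → Fam C) : Prop where
  anti : ∀ X, S X → ∀ (j ν : ℕ) (z : C.A X), (F (ν + 1)).Has j z → (F ν).Has j z
  zero : ∀ X, S X → ∀ (j : ℕ) (z : C.A X), (F 0).Has j z ↔ C.Deg j z
  one : ∀ X, S X → ∀ (j : ℕ) (z : C.A X), (F 1).Has j z ↔ C.Deg j z ∧ HomTriv H z
  two : ∀ X, S X → ∀ (j : ℕ) (z : C.A X), (F 2).Has j z ↔ N.Has j z
  top : ∀ X, S X → ∀ (j : ℕ) (z : C.A X), (F (j + 1)).Has j z → z = 0
  stable : ∀ X Y, S X → S Y → ∀ (j i ν : ℕ) (Γ : C.A (X.prod Y)), C.Deg (X.dim + i - j) Γ →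
    ∀ z, (F ν).Has j z → (F ν).Has i (C.act Γ z)
  shift : ∀ X Y, S X → S Y → ∀ (j i ν : ℕ) (Γ : C.A (X.prod Y)), C.Deg (X.dim + i - j) Γ →
    Kills H Γ (2 * j - ν) → ∀ z, (F ν).Has j z → (F (ν + 1)).Has i (C.act Γ z)

/-- A Chow-Kunneth decomposition of `X`: self-correspondences `π 0, …, π (2 dim X)` of degree zero
(`π i = 0` for `i > 2 dim X`) which are mutually orthogonal idempotents with sum the diagonal, and
such that `π i` acts as the identity on `H^i(X)` and as zero on `H^m(X)` for `m ≠ i`. -/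
structure IsChowKunneth (X : 𝒱.Obj) (π : ℕ → C.A (X.prod X)) : Prop where
  deg : ∀ i, C.Deg X.dim (π i)
  out : ∀ i, 2 * X.dim < i → π i = 0
  idem : ∀ i, cmp C (π i) (π i) = π i
  orth : ∀ i j, i ≠ j → cmp C (π i) (π j) = 0
  sum : ∑ i ∈ Finset.range (2 * X.dim + 1), π i = diagonal C X
  act_self : ∀ (i : ℕ) (a : H.A X), H.Deg i a → H.act (H.cl (π i)) a = a
  act_ne : ∀ (i : ℕ) (m : ℤ), m ≠ i → Kills H (π i) m

/-- The correspondence `q` is the projector on the transcendental part `t_2(S)` of the motive of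
the surface `S` (Murre; Kahn, Murre, Pedrini): `q` is a self-dual idempotent which acts as zero on
divisors, and there are a zero-cycle `x` of degree one (a point), with a pencil of curves through
it, and a Chow-Kunneth decomposition `π` of `S` such that `π 0 = x × S`, `π 4 = S × x`, `π 1` and
`π 3` factor through the motives `h^1` of curves, `q` is a direct summand of `π 2`, and `π 2 - q`
is a linear combination of products of divisors. -/
structure IsTranscendental (S : 𝒱.Obj) (q : C.A (S.prod S)) : Prop where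
  dim_eq : S.dim = 2
  deg : C.Deg 2 q
  idem : cmp C q q = q
  self_dual : transpose C q = q
  divisor : ∀ D : C.A S, C.Deg 1 D → C.act q D = 0
  exists_ck : ∃ (x : C.A S) (π : ℕ → C.A (S.prod S)), C.Deg 2 x ∧ DegOne C x ∧
    PencilProperty C x ∧ IsChowKunneth H S π ∧ π 0 = cross C x 1 ∧ π 4 = cross C 1 x ∧
    cmp C (π 2) q = q ∧
    InSpan C (fun c => ∃ D D' : C.A S, C.Deg 1 D ∧ C.Deg 1 D' ∧ c = cross C D D') (π 2 - q) ∧
    InSpan C (ThroughCurve C 2 1) (π 1) ∧ InSpan C (ThroughCurve C 1 2) (π 3)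

end weil

end Pool.Agent.Helper13BB.Stm
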